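import Mathlib

set_option autoImplicit false

namespace Pool.Agent.LongJames

/-- The parallel sum of `a ^ 2` and `r ^ 2`. -/
noncomputable def F (a r : ℝ) : ℝ := a ^ 2 * r ^ 2 / (a ^ 2 + r ^ 2)

lemma F_nonneg (a r : ℝ) : 0 ≤ F a r := by unfold F; positivity

@[simp] lemma F_zero_left (r : ℝ) : F 0 r = 0 := by simp [F]

@[simp] lemma F_zero_right (a : ℝ) : F a 0 = 0 := by simp [F]

lemma F_le_left (a r : ℝ) : F a r ≤ a ^ 2 := by
  unfold F
  rcases eq_or_ne a 0 with rfl | ha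
  · simp
  have h : 0 < a ^ 2 + r ^ 2 := by positivity
  rw [div_le_iff₀ h]
  nlinarith [sq_nonneg (a ^ 2), sq_nonneg (a * r)]

lemma F_comm (a r : ℝ) : F a r = F r a := by
  unfold F; rw [mul_comm, add_comm]

lemma F_le_right (a r : ℝ) : F a r ≤ r ^ 2 := by
  rw [F_comm]; exact F_le_left r a

lemma F_pos {a r : ℝ} (ha : a ≠ 0) (hr : r ≠ 0) : 0 < F a r := by
  unfold F; positivity

lemma F_smul (c a r : ℝ) : F (c * a) (c * r) = c ^ 2 * F a r := by
  unfold F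
  rcases eq_or_ne c 0 with rfl | hc
  · simp
  rcases eq_or_ne (a ^ 2 + r ^ 2) 0 with h | h
  · have : (c * a) ^ 2 + (c * r) ^ 2 = 0 := by rw [mul_pow, mul_pow, ← mul_add, h, mul_zero]
    rw [this, h]; simp
  · have h1 : (c * a) ^ 2 + (c * r) ^ 2 ≠ 0 := by
      rw [mul_pow, mul_pow, ← mul_add]; positivity
    field_simp

lemma F_neg_left (a r : ℝ) : F (-a) r = F a r := by simp [F]

/-- Lipschitz type bound in the first variable. -/
lemma abs_F_sub_left (a b r : ℝ) : |F a r - F b r| ≤ |a ^ 2 - b ^ 2| := by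
  rcases eq_or_ne r 0 with rfl | hr
  · simp
  have ha : 0 < a ^ 2 + r ^ 2 := by positivity
  have hb : 0 < b ^ 2 + r ^ 2 := by positivity
  have : F a r - F b r = (a ^ 2 - b ^ 2) * (r ^ 2 / (a ^ 2 + r ^ 2) * (r ^ 2 / (b ^ 2 + r ^ 2))) := by
    unfold F; field_simp; ring
  rw [this, abs_mul]
  apply mul_le_of_le_one_right (abs_nonneg _)
  rw [abs_of_nonneg (by positivity)]
  apply mul_le_one₀
  · rw [div_le_one ha]; nlinarith [sq_nonneg a]
  · positivity
  · rw [div_le_one hb]; nlinarith [sq_nonneg b]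

/-- Lipschitz bound in the second variable. -/
lemma abs_F_sub_right (a r s : ℝ) : |F a r - F a s| ≤ |a| * |r - s| := by
  rcases eq_or_ne a 0 with rfl | ha0
  · simp
  have hr : 0 < a ^ 2 + r ^ 2 := by positivity
  have hs : 0 < a ^ 2 + s ^ 2 := by positivity
  have : F a r - F a s = (r - s) * (a ^ 4 * (r + s) / ((a ^ 2 + r ^ 2) * (a ^ 2 + s ^ 2))) := by
    unfold F; field_simp; ring
  rw [this, abs_mul, mul_comm |a|]
  apply mul_le_mul_of_nonneg_left _ (abs_nonneg _)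
  rw [abs_div, abs_of_pos (mul_pos hr hs), div_le_iff₀ (mul_pos hr hs), abs_mul]
  have h1 : |r + s| ≤ |r| + |s| := abs_add_le r s
  have h2 : |a ^ 4| = |a| ^ 4 := by rw [abs_pow]
  rw [h2]
  have h3 : a ^ 2 = |a| ^ 2 := (sq_abs a).symm
  have h4 : r ^ 2 = |r| ^ 2 := (sq_abs r).symm
  have h5 : s ^ 2 = |s| ^ 2 := (sq_abs s).symm
  rw [h3, h4, h5]
  set x := |a|
  set y := |r|
  set z := |s|
  have hx : 0 ≤ x := abs_nonneg _
  have hy : 0 ≤ y := abs_nonneg _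
  have hz : 0 ≤ z := abs_nonneg _
  have h6 : x ^ 4 * |r + s| ≤ x ^ 4 * (y + z) := mul_le_mul_of_nonneg_left h1 (by positivity)
  refine h6.trans ?_
  have h7 : x ^ 3 * (y + z) ≤ (x ^ 2 + y ^ 2) * (x ^ 2 + z ^ 2) := by
    nlinarith [mul_nonneg (sq_nonneg x) (sq_nonneg (x - y)),
      mul_nonneg (sq_nonneg x) (sq_nonneg (x - z)), sq_nonneg (y * z), sq_nonneg (x * y),
      sq_nonneg (x * z)]
  calc x ^ 4 * (y + z) = x * (x ^ 3 * (y + z)) := by ring
    _ ≤ x * ((x ^ 2 + y ^ 2) * (x ^ 2 + z ^ 2)) := mul_le_mul_of_nonneg_left h7 hx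

/-- `a ^ 2 + r ^ 2 + F a r` is at least each of the quadratic forms. -/
lemma quad_le (a r θ : ℝ) :
    (1 - θ ^ 2 / 4) * (a ^ 2 + r ^ 2) + θ * (a * r) ≤ a ^ 2 + r ^ 2 + F a r := by
  unfold F
  rcases eq_or_ne (a ^ 2 + r ^ 2) 0 with h | h
  · have ha : a = 0 := by nlinarith [sq_nonneg a, sq_nonneg r]
    have hr : r = 0 := by nlinarith [sq_nonneg a, sq_nonneg r]
    subst ha; subst hr; simp
  · have h0 : 0 < a ^ 2 + r ^ 2 := lt_of_le_of_ne (by positivity) (Ne.symm h)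
    rw [← sub_nonneg]
    have : a ^ 2 + r ^ 2 + a ^ 2 * r ^ 2 / (a ^ 2 + r ^ 2) -
        ((1 - θ ^ 2 / 4) * (a ^ 2 + r ^ 2) + θ * (a * r)) =
        (θ / 2 * (a ^ 2 + r ^ 2) - a * r) ^ 2 / (a ^ 2 + r ^ 2) := by
      field_simp; ring
    rw [this]; positivity

/-- one of the quadratic forms attains the value -/
lemma exists_quad_eq (a r : ℝ) : ∃ θ : ℝ, |θ| ≤ 1 ∧
    a ^ 2 + r ^ 2 + F a r = (1 - θ ^ 2 / 4) * (a ^ 2 + r ^ 2) + θ * (a * r) := by
  rcases eq_or_ne (a ^ 2 + r ^ 2) 0 with h | h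
  · have ha : a = 0 := by nlinarith [sq_nonneg a, sq_nonneg r]
    have hr : r = 0 := by nlinarith [sq_nonneg a, sq_nonneg r]
    subst ha; subst hr
    exact ⟨0, by simp, by simp⟩
  · have h0 : 0 < a ^ 2 + r ^ 2 := lt_of_le_of_ne (by positivity) (Ne.symm h)
    refine ⟨2 * (a * r) / (a ^ 2 + r ^ 2), ?_, ?_⟩
    · rw [abs_div, abs_of_pos h0, div_le_one h0, abs_le]
      constructor <;> nlinarith [sq_nonneg (a + r), sq_nonneg (a - r)]
    · unfold F; field_simp; ring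

/-- `q` is the square of a seminorm. -/
structure SqSemi {E : Type*} [AddCommGroup E] [Module ℝ E] (q : E → ℝ) : Prop where
  nonneg : ∀ f, 0 ≤ q f
  smul : ∀ (c : ℝ) f, q (c • f) = c ^ 2 * q f
  add : ∀ f g, √(q (f + g)) ≤ √(q f) + √(q g)

namespace SqSemi

variable {E : Type*} [AddCommGroup E] [Module ℝ E]

lemma add_sq {q : E → ℝ} (h : SqSemi q) (f g : E) : q (f + g) ≤ (√(q f) + √(q g)) ^ 2 := by
  have h1 := h.add f g
  have h2 : √(q (f + g)) ^ 2 = q (f + g) := Real.sq_sqrt (h.nonneg _)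
  rw [← h2]
  exact pow_le_pow_left₀ (Real.sqrt_nonneg _) h1 2

lemma of_sq {q : E → ℝ} (h0 : ∀ f, 0 ≤ q f) (hs : ∀ (c : ℝ) f, q (c • f) = c ^ 2 * q f)
    (h : ∀ f g, q (f + g) ≤ (√(q f) + √(q g)) ^ 2) : SqSemi q where
  nonneg := h0
  smul := hs
  add f g := by
    rw [Real.sqrt_le_left (by positivity)]
    exact h f g

/-- two-dimensional Minkowski -/
lemma mink (a b c d : ℝ) :
    (a + b) ^ 2 + (c + d) ^ 2 ≤ (√(a ^ 2 + c ^ 2) + √(b ^ 2 + d ^ 2)) ^ 2 := by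
  have h1 : √(a ^ 2 + c ^ 2) ^ 2 = a ^ 2 + c ^ 2 := Real.sq_sqrt (by positivity)
  have h2 : √(b ^ 2 + d ^ 2) ^ 2 = b ^ 2 + d ^ 2 := Real.sq_sqrt (by positivity)
  have h3 : a * b + c * d ≤ √(a ^ 2 + c ^ 2) * √(b ^ 2 + d ^ 2) := by
    rw [← Real.sqrt_mul (by positivity)]
    apply Real.le_sqrt_of_sq_le
    nlinarith [sq_nonneg (a * d - b * c)]
  nlinarith

lemma add' {q₁ q₂ : E → ℝ} (h₁ : SqSemi q₁) (h₂ : SqSemi q₂) :
    SqSemi (fun f => q₁ f + q₂ f) := by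
  apply of_sq
  · intro f; exact add_nonneg (h₁.nonneg f) (h₂.nonneg f)
  · intro c f; simp only [h₁.smul, h₂.smul]; ring
  · intro f g
    have e1 : q₁ f = √(q₁ f) ^ 2 := (Real.sq_sqrt (h₁.nonneg f)).symm
    have e2 : q₁ g = √(q₁ g) ^ 2 := (Real.sq_sqrt (h₁.nonneg g)).symm
    have e3 : q₂ f = √(q₂ f) ^ 2 := (Real.sq_sqrt (h₂.nonneg f)).symm
    have e4 : q₂ g = √(q₂ g) ^ 2 := (Real.sq_sqrt (h₂.nonneg g)).symm
    have := mink √(q₁ f) √(q₁ g) √(q₂ f) √(q₂ g)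
    rw [← e1, ← e2, ← e3, ← e4] at this
    exact (add_le_add (h₁.add_sq f g) (h₂.add_sq f g)).trans this

lemma zero' : SqSemi (fun _ : E => (0 : ℝ)) := by
  refine ⟨fun _ => le_rfl, fun _ _ => by simp, fun _ _ => by simp⟩

lemma sum {ι : Type*} (s : Finset ι) (q : ι → E → ℝ) (h : ∀ i ∈ s, SqSemi (q i)) :
    SqSemi (fun f => ∑ i ∈ s, q i f) := by
  classical
  induction s using Finset.induction_on with
  | empty => simpa using zero'
  | insert a s ha ih =>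
    have h1 : SqSemi (q a) := h a (Finset.mem_insert_self a s)
    have h2 := ih (fun i hi => h i (Finset.mem_insert_of_mem hi))
    have := h1.add' h2
    simpa [Finset.sum_insert ha] using this

lemma const_mul {q : E → ℝ} (h : SqSemi q) {c : ℝ} (hc : 0 ≤ c) :
    SqSemi (fun f => c * q f) := by
  apply of_sq
  · intro f; exact mul_nonneg hc (h.nonneg f)
  · intro a f; simp only [h.smul]; ring
  · intro f g
    have h1 := h.add_sq f g
    rw [Real.sqrt_mul hc, Real.sqrt_mul hc, ← mul_add, mul_pow, Real.sq_sqrt hc]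
    exact mul_le_mul_of_nonneg_left h1 hc

lemma linear_sq (ℓ : E →ₗ[ℝ] ℝ) : SqSemi (fun f => (ℓ f) ^ 2) := by
  apply of_sq
  · intro f; positivity
  · intro c f; simp [mul_pow]
  · intro f g
    rw [map_add, Real.sqrt_sq_eq_abs, Real.sqrt_sq_eq_abs, ← sq_abs]
    exact pow_le_pow_left₀ (abs_nonneg _) (abs_add_le _ _) 2

/-- composition with a linear map -/
lemma comp {E' : Type*} [AddCommGroup E'] [Module ℝ E'] {q : E → ℝ} (h : SqSemi q)
    (L : E' →ₗ[ℝ] E) : SqSemi (fun f => q (L f)) := by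
  refine ⟨fun f => h.nonneg _, fun c f => ?_, fun f g => ?_⟩
  · simp only [map_smul, h.smul]
  · simp only [map_add]; exact h.add _ _

end SqSemi

/-- a nonnegative quadratic form given by three coefficients satisfies the triangle inequality -/
lemma quad_tri (A B C : ℝ) (hA : 0 ≤ A) (hC : 0 ≤ C) (hB : B ^ 2 ≤ 4 * A * C) (x y u v : ℝ) :
    A * (x + u) ^ 2 + B * ((x + u) * (y + v)) + C * (y + v) ^ 2 ≤
      (√(A * x ^ 2 + B * (x * y) + C * y ^ 2) + √(A * u ^ 2 + B * (u * v) + C * v ^ 2)) ^ 2 := by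
  have pos : ∀ x y : ℝ, 0 ≤ A * x ^ 2 + B * (x * y) + C * y ^ 2 := by
    intro x y
    rcases eq_or_lt_of_le hA with h | h
    · have hB0 : B = 0 := by
        have : B ^ 2 ≤ 0 := by rw [← h] at hB; simpa using hB
        nlinarith [sq_nonneg B]
      rw [← h, hB0]; simp; positivity
    · have : 0 ≤ 4 * A * (A * x ^ 2 + B * (x * y) + C * y ^ 2) := by
        nlinarith [sq_nonneg (2 * A * x + B * y), mul_nonneg (sub_nonneg.mpr hB) (sq_nonneg y)]
      by_contra hneg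
      push Not at hneg
      nlinarith
  have p1 := pos x y
  have p2 := pos u v
  have s1 := Real.sq_sqrt p1
  have s2 := Real.sq_sqrt p2
  have key : A * x * u * 2 + B * (x * v + u * y) + 2 * C * y * v ≤
      2 * (√(A * x ^ 2 + B * (x * y) + C * y ^ 2) * √(A * u ^ 2 + B * (u * v) + C * v ^ 2)) := by
    rw [← Real.sqrt_mul p1]
    have : (A * x * u * 2 + B * (x * v + u * y) + 2 * C * y * v) / 2 ≤
        √((A * x ^ 2 + B * (x * y) + C * y ^ 2) * (A * u ^ 2 + B * (u * v) + C * v ^ 2)) := by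
      apply Real.le_sqrt_of_sq_le
      nlinarith [mul_nonneg (sub_nonneg.mpr hB) (sq_nonneg (x * v - u * y))]
    linarith
  nlinarith

/-- the basic two-dimensional square norm -/
lemma sqSemi_G : SqSemi (fun z : ℝ × ℝ => z.1 ^ 2 + z.2 ^ 2 + F z.1 z.2) := by
  apply SqSemi.of_sq
  · intro z; have := F_nonneg z.1 z.2; positivity
  · intro c z
    simp only [Prod.smul_fst, Prod.smul_snd, smul_eq_mul, F_smul]; ring
  · intro z w
    obtain ⟨θ, hθ, he⟩ := exists_quad_eq (z + w).1 (z + w).2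
    have hθ2 : θ ^ 2 ≤ 1 := by
      rw [← sq_abs]; exact pow_le_one₀ (abs_nonneg _) hθ
    rw [he]
    have hA : 0 ≤ 1 - θ ^ 2 / 4 := by linarith
    have hq := quad_tri (1 - θ ^ 2 / 4) θ (1 - θ ^ 2 / 4) hA hA
      (by nlinarith [mul_nonneg (sub_nonneg.mpr hθ2) (sub_nonneg.mpr hθ2)]) z.1 z.2 w.1 w.2
    have l1 := quad_le z.1 z.2 θ
    have l2 := quad_le w.1 w.2 θ
    calc (1 - θ ^ 2 / 4) * ((z + w).1 ^ 2 + (z + w).2 ^ 2) + θ * ((z + w).1 * (z + w).2)
        = (1 - θ ^ 2 / 4) * (z.1 + w.1) ^ 2 + θ * ((z.1 + w.1) * (z.2 + w.2)) +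
          (1 - θ ^ 2 / 4) * (z.2 + w.2) ^ 2 := by
          simp only [Prod.fst_add, Prod.snd_add]; ring
      _ ≤ _ := hq
      _ ≤ _ := by
          apply pow_le_pow_left₀ (by positivity)
          apply add_le_add
          · apply Real.sqrt_le_sqrt; linarith
          · apply Real.sqrt_le_sqrt; linarith

end Pool.Agent.LongJames
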