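import Mathlib
import Pool.Agent.Lib_helper81.LongJames.Alg

set_option autoImplicit false
set_option linter.unusedSectionVars false

namespace Pool.Agent.LongJames

open Finset

section cost

variable {X : Type*} [LinearOrder X]

/-- The predecessor of `b` in the finite set `A` (and `b` itself if there is none). -/
noncomputable def pv (A : Finset X) (b : X) : X :=
  if h : (A.filter (· < b)).Nonempty then (A.filter (· < b)).max' h else b

lemma pv_eq {A : Finset X} {a b : X} (ha : a ∈ A) (hab : a < b) (h : ∀ c ∈ A, c < b → c ≤ a) :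
    pv A b = a := by
  have hne : (A.filter (· < b)).Nonempty := ⟨a, by simp [ha, hab]⟩
  rw [pv, dif_pos hne]
  apply le_antisymm
  · apply Finset.max'_le
    intro y hy
    rw [mem_filter] at hy
    exact h y hy.1 hy.2
  · apply Finset.le_max'
    simp [ha, hab]

lemma pv_eq_self {A : Finset X} {b : X} (h : ∀ c ∈ A, b ≤ c) : pv A b = b := by
  rw [pv, dif_neg]
  rintro ⟨c, hc⟩
  rw [mem_filter] at hc
  exact absurd hc.2 (not_lt.mpr (h c hc.1))

lemma pv_le (A : Finset X) (b : X) : pv A b ≤ b := by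
  unfold pv
  split_ifs with h
  · have := Finset.max'_mem _ h
    rw [mem_filter] at this
    exact this.2.le
  · exact le_rfl

lemma pv_spec {A : Finset X} {b c : X} (hc : c ∈ A) (hcb : c < b) :
    pv A b ∈ A ∧ pv A b < b ∧ ∀ c ∈ A, c < b → c ≤ pv A b := by
  have hne : (A.filter (· < b)).Nonempty := ⟨c, by simp [hc, hcb]⟩
  have h1 := Finset.max'_mem _ hne
  rw [mem_filter] at h1
  have h2 : pv A b = (A.filter (· < b)).max' hne := by rw [pv, dif_pos hne]
  rw [h2]
  refine ⟨h1.1, h1.2, fun c hc hcb => ?_⟩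
  apply Finset.le_max'
  simp [hc, hcb]

lemma pv_mem {A : Finset X} {b : X} (h : pv A b < b) : pv A b ∈ A := by
  by_contra hcon
  have : ∀ c ∈ A, b ≤ c := by
    intro c hc
    by_contra hcb
    push Not at hcb
    exact hcon (pv_spec hc hcb).1
  rw [pv_eq_self this] at h
  exact lt_irrefl _ h

lemma pv_mem' {A : Finset X} {b : X} (hb : b ∈ A) : pv A b ∈ A := by
  rcases (pv_le A b).lt_or_eq with h | h
  · exact pv_mem h
  · rw [h]; exact hb

lemma le_pv {A : Finset X} {b c : X} (hc : c ∈ A) (hcb : c < b) : c ≤ pv A b :=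
  (pv_spec hc hcb).2.2 c hc hcb

lemma pv_lt {A : Finset X} {b c : X} (hc : c ∈ A) (hcb : c < b) : pv A b < b :=
  (pv_spec hc hcb).2.1

lemma pv_congr {A B : Finset X} {b : X} (h : ∀ c, c < b → (c ∈ A ↔ c ∈ B)) : pv A b = pv B b := by
  by_cases hex : ∃ c ∈ A, c < b
  · obtain ⟨c, hc, hcb⟩ := hex
    have hs := pv_spec hc hcb
    symm
    apply pv_eq ((h _ hs.2.1).mp hs.1) hs.2.1
    intro c' hc' hc'b
    exact hs.2.2 c' ((h _ hc'b).mpr hc') hc'b
  · push Not at hex
    rw [pv_eq_self hex]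
    symm
    apply pv_eq_self
    intro c hc
    by_contra hcb
    push Not at hcb
    exact absurd hcb (not_lt.mpr (hex c ((h c hcb).mpr hc)))

/-- if `c ∈ A` with `c < b`, elements of `A` below `c` do not matter for the predecessor. -/
lemma pv_congr_of_mem {A B : Finset X} {b c : X} (hcA : c ∈ A) (hcB : c ∈ B) (hcb : c < b)
    (h : ∀ y, c < y → y < b → (y ∈ A ↔ y ∈ B)) : pv A b = pv B b := by
  have hs := pv_spec hcB hcb
  have hc1 : c ≤ pv B b := hs.2.2 c hcB hcb
  apply pv_eq
  · rcases hc1.lt_or_eq with h1 | h1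
    · exact (h _ h1 hs.2.1).mpr hs.1
    · rw [← h1]; exact hcA
  · exact hs.2.1
  · intro y hy hyb
    by_contra hlt
    push Not at hlt
    have : y ∈ B := (h y (lt_of_le_of_lt hc1 hlt) hyb).mp hy
    exact absurd (hs.2.2 y this hyb) (not_le.mpr hlt)

/-- The cost of a finite chain `A`. -/
noncomputable def cost (κ : X → X → ℝ) (A : Finset X) : ℝ := ∑ b ∈ A, κ (pv A b) b

lemma cost_nonneg {κ : X → X → ℝ} (h : ∀ a b, 0 ≤ κ a b) (A : Finset X) : 0 ≤ cost κ A :=
  Finset.sum_nonneg (fun _ _ => h _ _)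

/-- inserting a point that is not the last one -/
lemma cost_insert (κ : X → X → ℝ) {A : Finset X} {e z : X} (he : e ∉ A) (hz : z ∈ A)
    (hez : e < z) (hmin : ∀ c ∈ A, e < c → z ≤ c) :
    cost κ (insert e A) = cost κ A + κ (pv A e) e + (κ e z - κ (pv A z) z) := by
  unfold cost
  rw [Finset.sum_insert he]
  have h1 : pv (insert e A) e = pv A e := by
    apply pv_congr
    intro c hc
    simp [hc.ne]
  have h2 : ∑ b ∈ A, κ (pv (insert e A) b) b =
      ∑ b ∈ A, κ (pv A b) b + (κ e z - κ (pv A z) z) := by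
    rw [← Finset.add_sum_erase A _ hz, ← Finset.add_sum_erase A (fun b => κ (pv A b) b) hz]
    have h3 : pv (insert e A) z = e := by
      apply pv_eq (mem_insert_self e A) hez
      intro c hc hcz
      rcases mem_insert.mp hc with rfl | hcA
      · exact le_rfl
      · by_contra hlt
        push Not at hlt
        exact absurd hcz (not_lt.mpr (hmin c hcA hlt))
    rw [h3]
    have h4 : ∑ b ∈ A.erase z, κ (pv (insert e A) b) b = ∑ b ∈ A.erase z, κ (pv A b) b := by
      apply Finset.sum_congr rfl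
      intro b hb
      obtain ⟨hbz, hbA⟩ := mem_erase.mp hb
      congr 1
      rcases lt_or_ge e b with heb | heb
      · have hzb : z < b := lt_of_le_of_ne (hmin b hbA heb) (Ne.symm hbz)
        apply pv_congr_of_mem (mem_insert_of_mem hz) hz hzb
        intro y hy _
        have : y ≠ e := (hez.trans hy).ne'
        simp [this]
      · apply pv_congr
        intro c hc
        have : c ≠ e := (lt_of_lt_of_le hc heb).ne
        simp [this]
    rw [h4]; ring
  rw [h1, h2]; ring

/-- inserting a new last point -/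
lemma cost_insert_max (κ : X → X → ℝ) {A : Finset X} {m : X} (hm : ∀ a ∈ A, a < m) :
    cost κ (insert m A) = cost κ A + κ (pv A m) m := by
  have he : m ∉ A := fun h => lt_irrefl _ (hm m h)
  unfold cost
  rw [Finset.sum_insert he, add_comm]
  congr 1
  · apply Finset.sum_congr rfl
    intro b hb
    congr 1
    apply pv_congr
    intro c hc
    have : c ≠ m := (hc.trans (hm b hb)).ne
    simp [this]
  · congr 1
    apply pv_congr
    intro c hc
    simp [hc.ne]

/-- removing a section `[x, e)` -/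
lemma cost_remove (κ : X → X → ℝ) {A : Finset X} {x e : X} (he : e ∈ A)
    (hxe : x < e) :
    cost κ (A.filter (fun y => ¬ (x ≤ y ∧ y < e))) =
      cost κ A - ∑ b ∈ A.filter (fun y => x ≤ y ∧ y ≤ e), κ (pv A b) b +
        κ (pv (A.filter (fun y => ¬ (x ≤ y ∧ y < e))) e) e := by
  set A' := A.filter (fun y => ¬ (x ≤ y ∧ y < e)) with hA'
  have heA' : e ∈ A' := by simp [hA', he]
  have h1 : cost κ A' = κ (pv A' e) e + ∑ b ∈ A'.erase e, κ (pv A' b) b := by
    unfold cost
    rw [Finset.add_sum_erase A' (fun b => κ (pv A' b) b) heA']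
  have h2 : ∑ b ∈ A'.erase e, κ (pv A' b) b = ∑ b ∈ A'.erase e, κ (pv A b) b := by
    apply Finset.sum_congr rfl
    intro b hb
    obtain ⟨hbe, hbA'⟩ := mem_erase.mp hb
    obtain ⟨hbA, hb2⟩ := mem_filter.mp hbA'
    congr 1
    rcases lt_or_ge b x with hbx | hbx
    · apply pv_congr
      intro c hc
      have : ¬ (x ≤ c ∧ c < e) := fun h => absurd (hc.trans hbx) (not_lt.mpr h.1)
      rw [hA', mem_filter]
      exact ⟨fun h => h.1, fun h => ⟨h, this⟩⟩
    · have heb : e < b := by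
        rcases lt_trichotomy b e with h | h | h
        · exact absurd ⟨hbx, h⟩ hb2
        · exact absurd h hbe
        · exact h
      apply pv_congr_of_mem heA' he heb
      intro y hy _
      have : ¬ (x ≤ y ∧ y < e) := fun h => absurd hy (not_lt.mpr h.2.le)
      rw [hA', mem_filter]
      exact ⟨fun h => h.1, fun h => ⟨h, this⟩⟩
  have h3 : A'.erase e = A.filter (fun y => ¬ (x ≤ y ∧ y ≤ e)) := by
    ext y
    simp only [mem_erase, hA', mem_filter]
    constructor
    · rintro ⟨hne, hy, h⟩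
      refine ⟨hy, fun h' => h ⟨h'.1, lt_of_le_of_ne h'.2 hne⟩⟩
    · rintro ⟨hy, h⟩
      refine ⟨?_, hy, fun h' => h ⟨h'.1, h'.2.le⟩⟩
      rintro rfl
      exact h ⟨hxe.le, le_rfl⟩
  have h4 : cost κ A = ∑ b ∈ A.filter (fun y => x ≤ y ∧ y ≤ e), κ (pv A b) b +
      ∑ b ∈ A.filter (fun y => ¬ (x ≤ y ∧ y ≤ e)), κ (pv A b) b := by
    unfold cost
    rw [Finset.sum_filter_add_sum_filter_not]
  rw [h1, h2, h3, h4]; ring

/-- cost of the image of a strictly monotone finite sequence -/
lemma cost_image (κ : X → X → ℝ) {n : ℕ} (α : Fin (n + 1) → X) (hα : StrictMono α) :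
    cost κ (univ.image α) = κ (α 0) (α 0) + ∑ i : Fin n, κ (α i.castSucc) (α i.succ) := by
  unfold cost
  rw [Finset.sum_image (fun i _ j _ h => hα.injective h), Fin.sum_univ_succ]
  congr 1
  · congr 1
    apply pv_eq_self
    intro c hc
    obtain ⟨i, _, rfl⟩ := mem_image.mp hc
    exact hα.monotone (Fin.zero_le i)
  · apply Finset.sum_congr rfl
    intro i _
    congr 1
    apply pv_eq
    · exact mem_image_of_mem _ (mem_univ _)
    · exact hα Fin.castSucc_lt_succ
    · intro c hc hci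
      obtain ⟨j, _, rfl⟩ := mem_image.mp hc
      have : j < i.succ := hα.lt_iff_lt.mp hci
      exact hα.monotone (Fin.le_castSucc_iff.mpr this)

/-- every nonempty finite set is the image of a strictly monotone sequence -/
lemma exists_image_eq (A : Finset X) (hA : A.Nonempty) :
    ∃ (n : ℕ) (α : Fin (n + 1) → X), StrictMono α ∧ univ.image α = A := by
  obtain ⟨n, hn⟩ : ∃ n, A.card = n + 1 := ⟨A.card - 1, by
    have := Finset.card_pos.mpr hA; omega⟩
  refine ⟨n, A.orderEmbOfFin hn, (A.orderEmbOfFin hn).strictMono, ?_⟩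
  ext x
  simp only [mem_image, mem_univ, true_and]
  rw [← Finset.mem_coe, ← Finset.range_orderEmbOfFin A hn]
  rfl

end cost

section Q

variable {X : Type*} [LinearOrder X]

/-- the square variation kernel -/
def kV (f : X → ℝ) (a b : X) : ℝ := (f b - f a) ^ 2

lemma kV_self (f : X → ℝ) (b : X) : kV f b b = 0 := by simp [kV]

lemma kV_nonneg (f : X → ℝ) (a b : X) : 0 ≤ kV f a b := sq_nonneg _

/-- the square variation along a finite chain -/
noncomputable def VA (f : X → ℝ) (A : Finset X) : ℝ := cost (kV f) A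

lemma VA_nonneg (f : X → ℝ) (A : Finset X) : 0 ≤ VA f A := cost_nonneg (kV_nonneg f) A

/-- the set of square variations of `f` along finite chains -/
def VS (f : X → ℝ) : Set ℝ := {s : ℝ | ∃ n : ℕ, ∃ α : Fin (n + 1) → X,
            StrictMono α ∧
            s = ∑ i : Fin n, (f (α i.succ) - f (α i.castSucc)) ^ 2}

lemma VA_mem_VS (f : X → ℝ) {A : Finset X} (hA : A.Nonempty) : VA f A ∈ VS f := by
  obtain ⟨n, α, hα, rfl⟩ := exists_image_eq A hA
  exact ⟨n, α, hα, by rw [VA, cost_image _ _ hα, kV_self, zero_add]; rfl⟩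

lemma VS_eq (f : X → ℝ) {s : ℝ} (hs : s ∈ VS f) : ∃ A : Finset X, A.Nonempty ∧ s = VA f A := by
  obtain ⟨n, α, hα, rfl⟩ := hs
  refine ⟨univ.image α, ⟨α 0, mem_image_of_mem _ (mem_univ _)⟩, ?_⟩
  rw [VA, cost_image _ _ hα, kV_self, zero_add]; rfl

lemma VS_nonempty [Nonempty X] (f : X → ℝ) : (VS f).Nonempty := by
  obtain ⟨x⟩ := ‹Nonempty X›
  exact ⟨_, VA_mem_VS f ⟨x, mem_singleton_self x⟩⟩

lemma VA_le {f : X → ℝ} (hf : BddAbove (VS f)) (A : Finset X) : VA f A ≤ sSup (VS f) := by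
  rcases A.eq_empty_or_nonempty with rfl | hA
  · simp only [VA, cost, sum_empty]
    apply Real.sSup_nonneg
    intro s hs
    obtain ⟨A, _, rfl⟩ := VS_eq f hs
    exact VA_nonneg f A
  · exact le_csSup hf (VA_mem_VS f hA)

variable [OrderTop X] [SuccOrder X]

/-- the jump of `f` at `x` -/
def dd (f : X → ℝ) (x : X) : ℝ := f (Order.succ x) - f x

@[simp] lemma dd_top (f : X → ℝ) : dd f ⊤ = 0 := by simp [dd]

/-- the jump as a linear map -/
def ddL (x : X) : (X → ℝ) →ₗ[ℝ] ℝ where
  toFun f := dd f x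
  map_add' f g := by simp only [dd, Pi.add_apply]; ring
  map_smul' c f := by simp only [dd, Pi.smul_apply, smul_eq_mul, RingHom.id_apply]; ring

/-- the difference as a linear map -/
def dfL (a b : X) : (X → ℝ) →ₗ[ℝ] ℝ where
  toFun f := f b - f a
  map_add' f g := by simp only [Pi.add_apply]; ring
  map_smul' c f := by simp only [Pi.smul_apply, smul_eq_mul, RingHom.id_apply]; ring

/-- weight: the last step counts twice -/
noncomputable def wt (b : X) : ℝ := if b = ⊤ then 2 else 1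

@[simp] lemma wt_top : wt (⊤ : X) = 2 := by simp [wt]

lemma one_le_wt (b : X) : 1 ≤ wt b := by unfold wt; split_ifs <;> norm_num

lemma wt_le_two (b : X) : wt b ≤ 2 := by unfold wt; split_ifs <;> norm_num

lemma wt_of_lt {b : X} (h : b < ⊤) : wt b = 1 := by simp [wt, h.ne]

/-- the kernel without the rewards -/
noncomputable def kk (f : X → ℝ) (a b : X) : ℝ := wt b * (f b - f a) ^ 2 + F (f b - f a) (dd f b)

/-- the kernel with rewards `ξ` -/
noncomputable def kQ (ξ f : X → ℝ) (a b : X) : ℝ := kk f a b + ξ b * (dd f b) ^ 2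

/-- the functional `Q` along the chain `A`. -/
noncomputable def Q (ξ f : X → ℝ) (A : Finset X) : ℝ := cost (kQ ξ f) A

lemma kk_self (f : X → ℝ) (b : X) : kk f b b = 0 := by simp [kk]

lemma kk_nonneg (f : X → ℝ) (a b : X) : 0 ≤ kk f a b := by
  have h1 := one_le_wt b
  have h2 := F_nonneg (f b - f a) (dd f b)
  unfold kk; positivity

lemma le_kk (f : X → ℝ) (a b : X) : (f b - f a) ^ 2 ≤ kk f a b := by
  have h1 := one_le_wt b
  have h2 := F_nonneg (f b - f a) (dd f b)
  unfold kk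
  nlinarith [sq_nonneg (f b - f a)]

lemma kk_le (f : X → ℝ) (a b : X) : kk f a b ≤ 3 * (f b - f a) ^ 2 := by
  have h1 := wt_le_two b
  have h2 := F_le_left (f b - f a) (dd f b)
  unfold kk
  nlinarith [sq_nonneg (f b - f a)]

lemma kQ_nonneg {ξ : X → ℝ} (hξ : ∀ b, 1 ≤ ξ b) (f : X → ℝ) (a b : X) : 0 ≤ kQ ξ f a b := by
  have h1 := kk_nonneg f a b
  have h2 := hξ b
  unfold kQ; positivity

lemma Q_nonneg {ξ : X → ℝ} (hξ : ∀ b, 1 ≤ ξ b) (f : X → ℝ) (A : Finset X) : 0 ≤ Q ξ f A :=
  cost_nonneg (kQ_nonneg hξ f) A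

lemma sqSemi_kQ {ξ : X → ℝ} (hξ : ∀ b, 1 ≤ ξ b) (a b : X) :
    SqSemi (fun f : X → ℝ => kQ ξ f a b) := by
  have h1 : SqSemi (fun f : X → ℝ => (dfL a b f) ^ 2 + (ddL b f) ^ 2 + F (dfL a b f) (ddL b f)) :=
    sqSemi_G.comp ((dfL a b).prod (ddL b))
  have h2 : SqSemi (fun f : X → ℝ => (wt b - 1) * (dfL a b f) ^ 2) :=
    (SqSemi.linear_sq (dfL a b)).const_mul (by linarith [one_le_wt b])
  have h3 : SqSemi (fun f : X → ℝ => (ξ b - 1) * (ddL b f) ^ 2) :=
    (SqSemi.linear_sq (ddL b)).const_mul (by linarith [hξ b])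
  have h4 := (h1.add' h2).add' h3
  convert h4 using 2 with f
  simp only [kQ, kk, dfL, ddL, LinearMap.coe_mk, AddHom.coe_mk]
  ring

lemma sqSemi_Q {ξ : X → ℝ} (hξ : ∀ b, 1 ≤ ξ b) (A : Finset X) :
    SqSemi (fun f : X → ℝ => Q ξ f A) :=
  SqSemi.sum A (fun b f => kQ ξ f (pv A b) b) (fun _ _ => sqSemi_kQ hξ _ _)

/-- sum of squares of jumps is bounded by a variation sum -/
lemma sum_dd_le (f : X → ℝ) (B : Finset X) :
    ∑ b ∈ B, (dd f b) ^ 2 ≤ VA f (B ∪ B.image Order.succ) := by
  classical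
  have h0 : ∑ b ∈ B, (dd f b) ^ 2 = ∑ b ∈ B.filter (· < ⊤), (dd f b) ^ 2 := by
    rw [← Finset.sum_filter_add_sum_filter_not B (· < ⊤)]
    have : ∑ b ∈ B.filter (fun b => ¬ b < ⊤), (dd f b) ^ 2 = 0 := by
      apply Finset.sum_eq_zero
      intro b hb
      have : b = ⊤ := not_lt_top_iff.mp (mem_filter.mp hb).2
      rw [this, dd_top]; ring
    rw [this, add_zero]
  rw [h0]
  set C := B ∪ B.image Order.succ with hC
  have h1 : ∑ b ∈ B.filter (· < ⊤), (dd f b) ^ 2 =
      ∑ c ∈ (B.filter (· < ⊤)).image Order.succ, kV f (pv C c) c := by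
    rw [Finset.sum_image]
    · apply Finset.sum_congr rfl
      intro b hb
      obtain ⟨hbB, hbt⟩ := mem_filter.mp hb
      have : pv C (Order.succ b) = b := by
        apply pv_eq
        · rw [hC]; exact mem_union_left _ hbB
        · exact Order.lt_succ_of_not_isMax (fun h => hbt.ne (isMax_iff_eq_top.mp h))
        · intro c _ hc
          exact Order.lt_succ_iff_of_not_isMax (fun h => hbt.ne (isMax_iff_eq_top.mp h)) |>.mp hc
      rw [this]; rfl
    · intro a ha b hb hab
      have ha' : a < ⊤ := (mem_filter.mp ha).2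
      have hb' : b < ⊤ := (mem_filter.mp hb).2
      exact (Order.succ_eq_succ_iff_of_not_isMax (fun h => ha'.ne (isMax_iff_eq_top.mp h))
        (fun h => hb'.ne (isMax_iff_eq_top.mp h))).mp hab
  rw [h1]
  unfold VA cost
  apply Finset.sum_le_sum_of_subset_of_nonneg
  · intro c hc
    rw [hC]
    apply mem_union_right
    obtain ⟨b, hb, rfl⟩ := mem_image.mp hc
    exact mem_image_of_mem _ (mem_filter.mp hb).1
  · intro c _ _
    exact kV_nonneg _ _ _

lemma Q_le {ξ : X → ℝ} (hξ2 : ∀ b, ξ b ≤ 2) {f : X → ℝ}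
    (hf : BddAbove (VS f)) (A : Finset X) : Q ξ f A ≤ 5 * sSup (VS f) := by
  have h1 : Q ξ f A ≤ 3 * VA f A + 2 * ∑ b ∈ A, (dd f b) ^ 2 := by
    unfold Q VA cost
    rw [Finset.mul_sum, Finset.mul_sum, ← Finset.sum_add_distrib]
    apply Finset.sum_le_sum
    intro b _
    have h2 := kk_le f (pv A b) b
    have h3 := hξ2 b
    unfold kQ kV
    nlinarith [sq_nonneg (dd f b)]
  have h2 := VA_le hf A
  have h3 := sum_dd_le f A
  have h4 := VA_le hf (A ∪ A.image Order.succ)
  linarith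

lemma VA_le_Q {ξ : X → ℝ} (hξ : ∀ b, 1 ≤ ξ b) (f : X → ℝ) (A : Finset X) :
    VA f A ≤ Q ξ f A := by
  unfold VA Q cost
  apply Finset.sum_le_sum
  intro b _
  have h1 := le_kk f (pv A b) b
  have h2 := hξ b
  unfold kQ kV
  nlinarith [sq_nonneg (dd f b)]

lemma VA_le_VA_insert_top (f : X → ℝ) (A : Finset X) : VA f A ≤ VA f (insert ⊤ A) := by
  by_cases h : ⊤ ∈ A
  · rw [insert_eq_of_mem h]
  · have : ∀ a ∈ A, a < ⊤ := fun a ha => lt_top_iff_ne_top.mpr (fun h' => h (h' ▸ ha))
    unfold VA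
    rw [cost_insert_max _ this]
    linarith [kV_nonneg f (pv A ⊤) ⊤]

end Q

end Pool.Agent.LongJames
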