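import Mathlib
import Pool.Agent.Lib_helper81.LongJames.Chains

set_option autoImplicit false
set_option linter.unusedSectionVars false

namespace Pool.Agent.LongJames

open Finset Filter Topology

/-- a sum with at most one nonzero term -/
lemma sum_le_of_one {ι : Type*} (s : Finset ι) (g : ι → ℝ) {c : ℝ} (hc : 0 ≤ c)
    (h : ∀ b ∈ s, g b ≤ c) (h1 : ∀ a ∈ s, ∀ b ∈ s, g a ≠ 0 → g b ≠ 0 → a = b) :
    ∑ b ∈ s, g b ≤ c := by
  by_cases hex : ∃ a ∈ s, g a ≠ 0
  · obtain ⟨a, ha, hga⟩ := hex
    rw [Finset.sum_eq_single_of_mem a ha]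
    · exact h a ha
    · intro b hb hba
      by_contra hgb
      exact hba (h1 b hb a ha hgb hga)
  · push Not at hex
    rw [Finset.sum_eq_zero hex]
    exact hc

section

variable {X : Type*} [LinearOrder X]

/-- variation of a function cut to an interval -/
lemma VA_indicator_le (S : Set X) (hS : S.OrdConnected) (h : X → ℝ) (c M : ℝ) (hM : 0 ≤ M)
    (hb : ∀ x ∈ S, (h x - c) ^ 2 ≤ M) (B : Finset X) [DecidablePred (· ∈ S)] :
    VA (S.indicator (fun x => h x - c)) B ≤ VA h (B.filter (· ∈ S)) + 2 * M := by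
  set u := S.indicator (fun x => h x - c) with hu
  have hu1 : ∀ x ∈ S, u x = h x - c := fun x hx => Set.indicator_of_mem hx _
  have hu2 : ∀ x ∉ S, u x = 0 := fun x hx => Set.indicator_of_notMem hx _
  set B' := B.filter (· ∈ S) with hB'
  have key : ∀ b ∈ B, kV u (pv B b) b ≤ (if b ∈ S then kV h (pv B' b) b else 0) +
      ((if b ∈ S ∧ pv B b ∉ S then M else 0) + (if b ∉ S ∧ pv B b ∈ S then M else 0)) := by
    intro b hbB
    have hk := kV_nonneg h (pv B' b) b
    by_cases h1 : b ∈ S
    · by_cases h2 : pv B b ∈ S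
      · have h3 : pv B' b = pv B b := by
          rcases (pv_le B b).lt_or_eq with h4 | h4
          · apply pv_eq
            · rw [hB', mem_filter]; exact ⟨pv_mem h4, h2⟩
            · exact h4
            · intro c hc hcb
              exact le_pv (mem_filter.mp hc).1 hcb
          · rw [h4]
            apply pv_eq_self
            intro c hc
            by_contra hcb
            push Not at hcb
            exact absurd (pv_lt (mem_filter.mp hc).1 hcb) (by rw [h4]; exact lt_irrefl _)
        simp only [h1, h2, if_true, h3]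
        simp only [kV, hu1 b h1, hu1 _ h2]
        simp
      · simp only [h1, h2]
        simp only [kV, hu1 b h1, hu2 _ h2]
        have := hb b h1
        simp only [kV] at hk
        simp
        linarith
    · by_cases h2 : pv B b ∈ S
      · simp only [h1, h2, if_true]
        simp only [kV, hu1 _ h2, hu2 _ h1]
        have := hb _ h2
        simp
        linarith
      · simp only [h1, h2]
        simp [kV, hu2 _ h1, hu2 _ h2]
  calc VA u B = ∑ b ∈ B, kV u (pv B b) b := rfl
    _ ≤ ∑ b ∈ B, ((if b ∈ S then kV h (pv B' b) b else 0) +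
      ((if b ∈ S ∧ pv B b ∉ S then M else 0) + (if b ∉ S ∧ pv B b ∈ S then M else 0))) :=
        Finset.sum_le_sum key
    _ = VA h B' + (∑ b ∈ B, (if b ∈ S ∧ pv B b ∉ S then M else 0) +
        ∑ b ∈ B, (if b ∉ S ∧ pv B b ∈ S then M else 0)) := by
        rw [Finset.sum_add_distrib, Finset.sum_add_distrib, ← Finset.sum_filter]; rfl
    _ ≤ VA h B' + (M + M) := by
        gcongr
        · apply sum_le_of_one _ _ hM
          · intro b _; split_ifs <;> simp [hM]
          · intro a ha b hb' hga hgb
            have ha2 : a ∈ S ∧ pv B a ∉ S := by by_contra hcon; simp [hcon] at hga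
            have hb2 : b ∈ S ∧ pv B b ∉ S := by by_contra hcon; simp [hcon] at hgb
            rcases lt_trichotomy a b with hab | hab | hab
            · exact absurd (hS.out ha2.1 hb2.1 ⟨le_pv ha hab, pv_le B b⟩) hb2.2
            · exact hab
            · exact absurd (hS.out hb2.1 ha2.1 ⟨le_pv hb' hab, pv_le B a⟩) ha2.2
        · apply sum_le_of_one _ _ hM
          · intro b _; split_ifs <;> simp [hM]
          · intro a ha b hb' hga hgb
            have ha2 : a ∉ S ∧ pv B a ∈ S := by by_contra hcon; simp [hcon] at hga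
            have hb2 : b ∉ S ∧ pv B b ∈ S := by by_contra hcon; simp [hcon] at hgb
            rcases lt_trichotomy a b with hab | hab | hab
            · exact absurd (hS.out ha2.2 hb2.2 ⟨pv_le B a, le_pv ha hab⟩) ha2.1
            · exact hab
            · exact absurd (hS.out hb2.2 ha2.2 ⟨pv_le B b, le_pv hb' hab⟩) hb2.1
    _ = VA h B' + 2 * M := by ring

lemma VA_add_le (f g : X → ℝ) (A : Finset X) : VA (f + g) A ≤ 2 * VA f A + 2 * VA g A := by
  unfold VA cost
  rw [Finset.mul_sum, Finset.mul_sum, ← Finset.sum_add_distrib]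
  apply Finset.sum_le_sum
  intro b _
  simp only [kV, Pi.add_apply]
  nlinarith [sq_nonneg ((f b - f (pv A b)) - (g b - g (pv A b)))]

lemma VA_smul (c : ℝ) (f : X → ℝ) (A : Finset X) : VA (c • f) A = c ^ 2 * VA f A := by
  unfold VA cost
  rw [Finset.mul_sum]
  apply Finset.sum_congr rfl
  intro b _
  simp only [kV, Pi.smul_apply, smul_eq_mul]
  ring

lemma bdd_iff (f : X → ℝ) : BddAbove (VS f) ↔ ∃ C, ∀ A : Finset X, VA f A ≤ C := by
  constructor
  · intro h; exact ⟨_, VA_le h⟩
  · rintro ⟨C, hC⟩
    refine ⟨C, ?_⟩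
    intro s hs
    obtain ⟨A, _, rfl⟩ := VS_eq f hs
    exact hC A

lemma sSup_VS_le [Nonempty X] {f : X → ℝ} {C : ℝ} (h : ∀ A : Finset X, VA f A ≤ C) :
    sSup (VS f) ≤ C := by
  apply csSup_le (VS_nonempty f)
  intro s hs
  obtain ⟨A, _, rfl⟩ := VS_eq f hs
  exact h A

end

section top

variable {X : Type*} [LinearOrder X] [OrderTop X] [SuccOrder X] [WellFoundedLT X]
  [TopologicalSpace X] [OrderTopology X] [CompactSpace X]

/-- membership in the James space over `X` -/
structure InJ (f : X → ℝ) : Prop where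
  cont : Continuous f
  top : f ⊤ = 0
  bdd : BddAbove (VS f)

lemma InJ.add {f g : X → ℝ} (hf : InJ f) (hg : InJ g) : InJ (f + g) := by
  refine ⟨hf.cont.add hg.cont, by simp [hf.top, hg.top], ?_⟩
  rw [bdd_iff]
  exact ⟨2 * sSup (VS f) + 2 * sSup (VS g), fun A => (VA_add_le f g A).trans (by
    have := VA_le hf.bdd A; have := VA_le hg.bdd A; linarith)⟩

lemma InJ.smul {f : X → ℝ} (c : ℝ) (hf : InJ f) : InJ (c • f) := by
  refine ⟨continuous_const.smul hf.cont, by simp [hf.top], ?_⟩
  rw [bdd_iff]
  exact ⟨c ^ 2 * sSup (VS f), fun A => by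
    rw [VA_smul]
    exact mul_le_mul_of_nonneg_left (VA_le hf.bdd A) (sq_nonneg c)⟩

lemma InJ.sub {f g : X → ℝ} (hf : InJ f) (hg : InJ g) : InJ (f - g) := by
  have := hf.add (hg.smul (-1))
  convert this using 1
  ext x; simp [sub_eq_add_neg]

lemma InJ.zero : InJ (0 : X → ℝ) := by
  refine ⟨continuous_const, rfl, ?_⟩
  rw [bdd_iff]
  refine ⟨0, fun A => ?_⟩
  simp [VA, cost, kV]

lemma isOpen_Iic' (l : X) : IsOpen (Set.Iic l) := by
  rcases eq_or_ne l ⊤ with rfl | hl
  · simp
  · have : Set.Iic l = Set.Iio (Order.succ l) := by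
      ext x
      simp only [Set.mem_Iic, Set.mem_Iio]
      rw [Order.lt_succ_iff_of_not_isMax (fun h => hl (isMax_iff_eq_top.mp h))]
    rw [this]
    exact isOpen_Iio

lemma isClopen_Iic' (l : X) : IsClopen (Set.Iic l) := ⟨isClosed_Iic, isOpen_Iic' l⟩

lemma isClopen_Ioc' (y l : X) : IsClopen (Set.Ioc y l) := by
  have : Set.Ioc y l = Set.Iic l \ Set.Iic y := by
    ext x; simp only [Set.mem_Ioc, Set.mem_sdiff, Set.mem_Iic, not_le]; tauto
  rw [this]
  exact (isClopen_Iic' l).diff (isClopen_Iic' y)

lemma Iic_mem_nhds' (l : X) : Set.Iic l ∈ 𝓝 l := (isOpen_Iic' l).mem_nhds (Set.mem_Iic.mpr le_rfl)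

lemma Ioc_mem_nhds' {y l : X} (h : y < l) : Set.Ioc y l ∈ 𝓝 l :=
  (isClopen_Ioc' y l).isOpen.mem_nhds ⟨h, le_rfl⟩

/-- neighbourhoods of a point contain a half open interval, or the point is the bottom -/
lemma exists_Ioc {l : X} {s : Set X} (hs : s ∈ 𝓝 l) (hl : ∃ y, y < l) :
    ∃ y, y < l ∧ Set.Ioc y l ⊆ s := exists_Ioc_subset_of_mem_nhds hs hl

/-- plateau lemma -/
lemma exists_plateau {f : X → ℝ} (hf : Continuous f) (l : X) :
    ∃ e, l ≤ e ∧ (∀ z, l ≤ z → z ≤ e → f z = f l) ∧ (e ≠ ⊤ → dd f e ≠ 0) := by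
  by_cases hex : ∃ z, l ≤ z ∧ f z ≠ f l
  · -- the least such point
    obtain ⟨z, ⟨hlz, hfz⟩, hmin⟩ := WellFounded.has_min (wellFounded_lt (α := X))
      {z | l ≤ z ∧ f z ≠ f l} hex
    have hlz' : l < z := lt_of_le_of_ne hlz (fun h => hfz (by rw [h]))
    have hnh : {x | f x ≠ f l} ∈ 𝓝 z :=
      (isOpen_ne_fun hf continuous_const).mem_nhds hfz
    obtain ⟨y, hyz, hsub⟩ := exists_Ioc hnh ⟨l, hlz'⟩
    have hlow : ∀ w, l ≤ w → w < z → f w = f l := by
      intro w hw hwz
      by_contra hcon
      exact hmin w ⟨hw, hcon⟩ hwz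
    refine ⟨max y l, le_max_right _ _, ?_, ?_⟩
    · intro w hw hw2
      exact hlow w hw (lt_of_le_of_lt hw2 (max_lt hyz hlz'))
    · intro _
      have hez : max y l < z := max_lt hyz hlz'
      have hsucc : Order.succ (max y l) = z := by
        apply le_antisymm (Order.succ_le_of_lt hez)
        by_contra hlt
        push Not at hlt
        have h1 : max y l < Order.succ (max y l) :=
          Order.lt_succ_of_not_isMax (fun h => absurd (h.isTop z) (not_le.mpr hez))
        have h2 : f (Order.succ (max y l)) ≠ f l :=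
          hsub ⟨lt_of_le_of_lt (le_max_left _ _) h1, hlt.le⟩
        exact h2 (hlow _ ((le_max_right _ _).trans h1.le) hlt)
      unfold dd
      rw [hsucc, hlow (max y l) (le_max_right _ _) hez]
      exact sub_ne_zero.mpr hfz
  · push Not at hex
    exact ⟨⊤, le_top, fun z hz _ => hex z hz, fun h => absurd rfl h⟩

/-- left of any point the variation is small -/
lemma tail_lt {f : X → ℝ} (hf : BddAbove (VS f)) (l : X) (hl : ∃ y, y < l) {ε : ℝ} (hε : 0 < ε) :
    ∃ y, y < l ∧ ∀ B : Finset X, (∀ b ∈ B, y < b ∧ b < l) → VA f B ≤ ε := by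
  by_contra hcon
  push Not at hcon
  obtain ⟨y0, hy0⟩ := hl
  have hind : ∀ n : ℕ, ∃ B : Finset X, (∀ b ∈ B, b < l) ∧ (n : ℝ) * ε ≤ VA f B := by
    intro n
    induction n with
    | zero => exact ⟨∅, by simp, by simp [VA, cost]⟩
    | succ n ih =>
      obtain ⟨B, hB, hBV⟩ := ih
      obtain ⟨m, hm, hBm⟩ : ∃ m, m < l ∧ ∀ b ∈ B, b ≤ m := by
        rcases B.eq_empty_or_nonempty with rfl | hne
        · exact ⟨y0, hy0, by simp⟩
        · exact ⟨B.max' hne, hB _ (B.max'_mem hne), fun b hb => B.le_max' b hb⟩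
      obtain ⟨C, hC, hCV⟩ := hcon m hm
      refine ⟨B ∪ C, ?_, ?_⟩
      · intro b hb
        rcases mem_union.mp hb with h | h
        · exact hB b h
        · exact (hC b h).2
      · have hdisj : Disjoint B C := by
          rw [Finset.disjoint_left]
          intro a ha hac
          exact absurd (hC a hac).1 (not_lt.mpr (hBm a ha))
        have h1 : VA f B + VA f C ≤ VA f (B ∪ C) := by
          unfold VA cost
          rw [Finset.sum_union hdisj]
          apply add_le_add
          · apply le_of_eq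
            apply Finset.sum_congr rfl
            intro b hb
            congr 1
            apply pv_congr
            intro c hc
            constructor
            · exact fun h => mem_union_left _ h
            · intro h
              rcases mem_union.mp h with h | h
              · exact h
              · exact absurd (hc.trans_le (hBm b hb)) (not_lt.mpr (hC c h).1.le)
          · apply Finset.sum_le_sum
            intro c hc
            rcases (pv_le C c).lt_or_eq with h | h
            · have : pv (B ∪ C) c = pv C c := by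
                apply pv_eq
                · exact mem_union_right _ (pv_mem h)
                · exact h
                · intro d hd hdc
                  rcases mem_union.mp hd with h' | h'
                  · exact (hBm d h').trans (hC _ (pv_mem h)).1.le
                  · exact le_pv h' hdc
              rw [this]
            · rw [h, kV_self]; exact kV_nonneg _ _ _
        push_cast
        linarith
  obtain ⟨n, hn⟩ := exists_nat_gt (sSup (VS f) / ε)
  obtain ⟨B, _, hBV⟩ := hind n
  have := VA_le hf B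
  rw [div_lt_iff₀ hε] at hn
  linarith

/-- near a point followed by a plateau the variation is small -/
lemma tail_plateau {f : X → ℝ} (hf : InJ f) {l e : X}
    (hle : ∀ z, l ≤ z → z ≤ e → f z = f l) {ε : ℝ} (hε : 0 < ε) :
    ∀ᶠ x in 𝓝 l, ∀ B : Finset X, (∀ b ∈ B, x ≤ b ∧ b ≤ e) → VA f B ≤ ε := by
  -- split of the variation
  have split : ∀ (x : X) (B : Finset X), (∀ b ∈ B, x ≤ b ∧ b ≤ e) →
      (∀ z, x ≤ z → z ≤ l → (f z - f l) ^ 2 ≤ ε / 2) →
      VA f (B.filter (· < l)) ≤ ε / 2 → VA f B ≤ ε := by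
    intro x B hB hosc h1
    have h2 : VA f B = ∑ b ∈ B.filter (· < l), kV f (pv B b) b +
        ∑ b ∈ B.filter (fun b => ¬ b < l), kV f (pv B b) b := by
      rw [Finset.sum_filter_add_sum_filter_not]; rfl
    have h3 : ∑ b ∈ B.filter (· < l), kV f (pv B b) b = VA f (B.filter (· < l)) := by
      unfold VA cost
      apply Finset.sum_congr rfl
      intro b hb
      congr 1
      apply pv_congr
      intro c hc
      have : c < l := hc.trans (mem_filter.mp hb).2
      simp [this]
    have h4 : ∑ b ∈ B.filter (fun b => ¬ b < l), kV f (pv B b) b ≤ ε / 2 := by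
      have hval : ∀ b ∈ B, ¬ b < l → l ≤ pv B b → kV f (pv B b) b = 0 := by
        intro b hb hbl hp
        push Not at hbl
        have e1 := hle b hbl (hB b hb).2
        have e2 := hle _ hp ((pv_le B b).trans (hB b hb).2)
        simp [kV, e1, e2]
      apply sum_le_of_one _ _ (by positivity)
      · intro b hb
        obtain ⟨hbB, hbl⟩ := mem_filter.mp hb
        rcases lt_or_ge (pv B b) l with h | h
        · have hm : pv B b ∈ B := pv_mem' hbB
          have e1 := hle b (not_lt.mp hbl) (hB b hbB).2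
          have e2 := hosc _ (hB _ hm).1 h.le
          simp only [kV, e1]
          nlinarith
        · rw [hval b hbB hbl h]; positivity
      · intro a ha b hb hga hgb
        obtain ⟨haB, hal⟩ := mem_filter.mp ha
        obtain ⟨hbB, hbl⟩ := mem_filter.mp hb
        have ha2 : pv B a < l := by
          by_contra hcon; exact hga (hval a haB hal (not_lt.mp hcon))
        have hb2 : pv B b < l := by
          by_contra hcon; exact hgb (hval b hbB hbl (not_lt.mp hcon))
        push Not at hal hbl
        rcases lt_trichotomy a b with hab | hab | hab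
        · exact absurd (hal.trans (le_pv haB hab)) (not_le.mpr hb2)
        · exact hab
        · exact absurd (hbl.trans (le_pv hbB hab)) (not_le.mpr ha2)
    rw [h2, h3]; linarith
  have hcont : ∀ᶠ z in 𝓝 l, (f z - f l) ^ 2 < ε / 2 := by
    have h1 : Tendsto (fun z => (f z - f l) ^ 2) (𝓝 l) (𝓝 ((f l - f l) ^ 2)) :=
      ((hf.cont.sub continuous_const).pow 2).tendsto l
    rw [sub_self] at h1
    have h2 : (0 : ℝ) ^ 2 < ε / 2 := by
      rw [zero_pow two_ne_zero]; positivity
    exact h1.eventually (gt_mem_nhds h2)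
  by_cases hl : ∃ y, y < l
  · obtain ⟨y1, hy1, hB1⟩ := tail_lt hf.bdd l hl (half_pos hε)
    obtain ⟨y2, hy2, hsub⟩ := exists_Ioc hcont hl
    have hev : ∀ᶠ x in 𝓝 l, x ∈ Set.Ioc (max y1 y2) l := Ioc_mem_nhds' (max_lt hy1 hy2)
    filter_upwards [hev] with x hx B hB
    apply split x B hB
    · intro z hz1 hz2
      exact (hsub ⟨lt_of_lt_of_le (lt_of_le_of_lt (le_max_right _ _) hx.1) hz1, hz2⟩).le
    · apply hB1
      intro b hb
      obtain ⟨hbB, hbl⟩ := mem_filter.mp hb
      exact ⟨lt_of_lt_of_le (lt_of_le_of_lt (le_max_left _ _) hx.1) (hB b hbB).1, hbl⟩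
  · push Not at hl
    filter_upwards with x B hB
    apply split l B
    · intro b hb; exact ⟨hl b, (hB b hb).2⟩
    · intro z hz1 hz2
      rw [le_antisymm hz2 hz1, sub_self, zero_pow two_ne_zero]; positivity
    · have : B.filter (· < l) = ∅ := by
        apply Finset.filter_eq_empty_iff.mpr
        intro b _; exact not_lt.mpr (hl b)
      rw [this]; simp [VA, cost]; positivity

lemma continuous_indicator' {S : Set X} (hS : IsClopen S) {f : X → ℝ} (hf : Continuous f) :
    Continuous (S.indicator f) := by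
  apply hf.indicator
  intro a ha
  rw [hS.frontier_eq] at ha
  exact absurd ha (Set.notMem_empty a)

/-- the indicator of an initial segment -/
noncomputable def ee (g : X) : X → ℝ := (Set.Iic g).indicator (fun _ => (1 : ℝ))

lemma ee_of_le {g x : X} (h : x ≤ g) : ee g x = 1 :=
  Set.indicator_of_mem (show x ∈ Set.Iic g from h) _

lemma ee_of_gt {g x : X} (h : g < x) : ee g x = 0 :=
  Set.indicator_of_notMem (fun h' : x ∈ Set.Iic g => absurd h (not_lt.mpr h')) _

lemma InJ_ee {g : X} (hg : g < ⊤) : InJ (ee g) := by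
  classical
  refine ⟨continuous_indicator' (isClopen_Iic' g) continuous_const, ee_of_gt hg, ?_⟩
  rw [bdd_iff]
  refine ⟨2, fun A => ?_⟩
  have := VA_indicator_le (Set.Iic g) Set.ordConnected_Iic (fun _ : X => (1 : ℝ)) 0 1 (by norm_num)
    (by intro x _; norm_num) A
  simp only [sub_zero] at this
  refine this.trans ?_
  have h0 : VA (fun _ : X => (1 : ℝ)) (A.filter (· ∈ Set.Iic g)) = 0 := by
    simp [VA, cost, kV]
  rw [h0]; norm_num

/-- the truncation of `h` at `l`. -/
noncomputable def tr (h : X → ℝ) (l : X) : X → ℝ := (Set.Iic l).indicator (fun x => h x - h l)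

lemma InJ.exists_bound {h : X → ℝ} (hh : InJ h) : ∃ M : ℝ, 0 ≤ M ∧ ∀ x, |h x| ≤ M := by
  obtain ⟨M, hM⟩ := (isCompact_univ (X := X)).exists_bound_of_continuousOn hh.cont.continuousOn
  refine ⟨max M 0, le_max_right _ _, fun x => ?_⟩
  exact (hM x (Set.mem_univ x)).trans (le_max_left _ _)

lemma InJ_tr {h : X → ℝ} (hh : InJ h) (l : X) : InJ (tr h l) := by
  classical
  obtain ⟨M, hM0, hM⟩ := hh.exists_bound
  refine ⟨continuous_indicator' (isClopen_Iic' l) (hh.cont.sub continuous_const), ?_, ?_⟩
  · rcases eq_or_ne l ⊤ with rfl | hl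
    · simp [tr]
    · exact Set.indicator_of_notMem (fun h' : ⊤ ∈ Set.Iic l => hl (top_le_iff.mp h')) _
  · rw [bdd_iff]
    refine ⟨sSup (VS h) + 2 * (2 * M) ^ 2, fun A => ?_⟩
    have := VA_indicator_le (Set.Iic l) Set.ordConnected_Iic h (h l) ((2 * M) ^ 2) (by positivity)
      (by
        intro x _
        rw [sq_le_sq, abs_of_nonneg (by positivity : 0 ≤ 2 * M)]
        have h1 := hM x
        have h2 := hM l
        have h3 := abs_sub (h x) (h l)
        linarith) A
    refine this.trans ?_
    have := VA_le hh.bdd (A.filter (· ∈ Set.Iic l))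
    linarith

/-- the recursion for truncations -/
lemma tr_eq (h : X → ℝ) {y l : X} (hyl : y < l) :
    tr h l = tr h y + (h y - h l) • ee y + (Set.Ioc y l).indicator (fun x => h x - h l) := by
  ext x
  simp only [Pi.add_apply, Pi.smul_apply, smul_eq_mul, tr]
  rcases le_or_gt x y with h1 | h1
  · have h2 : x ≤ l := h1.trans hyl.le
    rw [Set.indicator_of_mem (show x ∈ Set.Iic l from h2),
      Set.indicator_of_mem (show x ∈ Set.Iic y from h1), ee_of_le h1,
      Set.indicator_of_notMem (fun h' : x ∈ Set.Ioc y l => absurd h'.1 (not_lt.mpr h1))]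
    ring
  · rw [Set.indicator_of_notMem (fun h' : x ∈ Set.Iic y => absurd h1 (not_lt.mpr h')), ee_of_gt h1]
    rcases le_or_gt x l with h2 | h2
    · rw [Set.indicator_of_mem (show x ∈ Set.Iic l from h2),
        Set.indicator_of_mem (show x ∈ Set.Ioc y l from ⟨h1, h2⟩)]
      ring
    · rw [Set.indicator_of_notMem (fun h' : x ∈ Set.Iic l => absurd h2 (not_lt.mpr h')),
        Set.indicator_of_notMem (fun h' : x ∈ Set.Ioc y l => absurd h2 (not_lt.mpr h'.2))]
      ring

lemma rest_small {h : X → ℝ} (hh : InJ h) {l : X} (hl : ∃ y, y < l) {ε : ℝ} (hε : 0 < ε) :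
    ∃ y, y < l ∧ InJ ((Set.Ioc y l).indicator (fun x => h x - h l)) ∧
      sSup (VS ((Set.Ioc y l).indicator (fun x => h x - h l))) ≤ ε := by
  classical
  have h1 := tail_plateau (e := l) hh (fun z hz1 hz2 => by rw [le_antisymm hz2 hz1])
    (show 0 < ε / 3 by positivity)
  have hcont : ∀ᶠ z in 𝓝 l, (h z - h l) ^ 2 < ε / 3 := by
    have h1 : Tendsto (fun z => (h z - h l) ^ 2) (𝓝 l) (𝓝 ((h l - h l) ^ 2)) :=
      ((hh.cont.sub continuous_const).pow 2).tendsto l
    rw [sub_self] at h1
    have h2 : (0 : ℝ) ^ 2 < ε / 3 := by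
      rw [zero_pow two_ne_zero]; positivity
    exact h1.eventually (gt_mem_nhds h2)
  obtain ⟨y, hyl, hsub⟩ := exists_Ioc (h1.and hcont) hl
  have hbound : ∀ B : Finset X, VA ((Set.Ioc y l).indicator (fun x => h x - h l)) B ≤ ε := by
    intro B
    have h2 := VA_indicator_le (Set.Ioc y l) Set.ordConnected_Ioc h (h l) (ε / 3) (by positivity)
      (fun x hx => (hsub hx).2.le) B
    refine h2.trans ?_
    have h3 : VA h (B.filter (· ∈ Set.Ioc y l)) ≤ ε / 3 := by
      rcases (B.filter (· ∈ Set.Ioc y l)).eq_empty_or_nonempty with h4 | h4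
      · rw [h4]; simp [VA, cost]; positivity
      · have h5 := Finset.min'_mem _ h4
        refine (hsub (mem_filter.mp h5).2).1 _ ?_
        intro b hb
        exact ⟨Finset.min'_le _ b hb, (mem_filter.mp hb).2.2⟩
    linarith
  have : Nonempty X := ⟨⊤⟩
  refine ⟨y, hyl, ⟨continuous_indicator' (isClopen_Ioc' y l) (hh.cont.sub continuous_const), ?_,
    (bdd_iff _).mpr ⟨ε, hbound⟩⟩, sSup_VS_le hbound⟩
  rcases eq_or_ne l ⊤ with rfl | hl'
  · by_cases hy : ⊤ ∈ Set.Ioc y (⊤ : X)
    · rw [Set.indicator_of_mem hy, sub_self]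
    · rw [Set.indicator_of_notMem hy]
  · exact Set.indicator_of_notMem (fun h' => hl' (top_le_iff.mp h'.2)) _

lemma tr_bot {h : X → ℝ} {l : X} (hl : ¬ ∃ y, y < l) : tr h l = 0 := by
  push Not at hl
  ext x
  simp only [tr, Pi.zero_apply]
  rcases le_or_gt x l with h2 | h2
  · rw [Set.indicator_of_mem (show x ∈ Set.Iic l from h2), le_antisymm h2 (hl x), sub_self]
  · rw [Set.indicator_of_notMem (fun h' : x ∈ Set.Iic l => absurd h2 (not_lt.mpr h'))]

lemma tr_top {h : X → ℝ} (hh : InJ h) : tr h ⊤ = h := by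
  ext x
  simp only [tr]
  rw [Set.indicator_of_mem (show x ∈ Set.Iic (⊤ : X) from le_top), hh.top, sub_zero]

/-- induction principle: a property closed under sums, multiples and limits which holds for the
indicators of initial segments holds on the whole space -/
lemma InJ_induction (P : (X → ℝ) → Prop) (hP0 : P 0)
    (hadd : ∀ f g, InJ f → InJ g → P f → P g → P (f + g))
    (hsmul : ∀ (c : ℝ) f, InJ f → P f → P (c • f))
    (hlim : ∀ f, InJ f → (∀ ε > 0, ∃ g, InJ g ∧ P g ∧ InJ (f - g) ∧ sSup (VS (f - g)) ≤ ε) → P f)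
    (hee : ∀ g, g < ⊤ → P (ee g)) {h : X → ℝ} (hh : InJ h) : P h := by
  have main : ∀ l : X, P (tr h l) := by
    intro l
    induction l using WellFoundedLT.induction with
    | ind l ih =>
      by_cases hl : ∃ y, y < l
      · apply hlim _ (InJ_tr hh l)
        intro ε hε
        obtain ⟨y, hyl, hJ, hs⟩ := rest_small hh hl hε
        have hyt : y < ⊤ := lt_of_lt_of_le hyl le_top
        have hJ1 : InJ (tr h y) := InJ_tr hh y
        have hJ2 : InJ ((h y - h l) • ee y) := (InJ_ee hyt).smul _
        refine ⟨tr h y + (h y - h l) • ee y, hJ1.add hJ2,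
          hadd _ _ hJ1 hJ2 (ih y hyl) (hsmul _ _ (InJ_ee hyt) (hee y hyt)), ?_, ?_⟩
        · have : tr h l - (tr h y + (h y - h l) • ee y) =
              (Set.Ioc y l).indicator (fun x => h x - h l) := by
            rw [tr_eq h hyl]; abel
          rw [this]; exact hJ
        · have : tr h l - (tr h y + (h y - h l) • ee y) =
              (Set.Ioc y l).indicator (fun x => h x - h l) := by
            rw [tr_eq h hyl]; abel
          rw [this]; exact hs
      · rw [tr_bot hl]; exact hP0
  have := main ⊤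
  rwa [tr_top hh] at this

end top

end Pool.Agent.LongJames
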