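import Mathlib
import Pool.Agent.Lib_helper81.LongJames.Space

set_option autoImplicit false
set_option linter.unusedSectionVars false

namespace Pool.Agent.LongJames

open Finset Filter Topology

variable {X : Type*} [LinearOrder X] [OrderTop X] [SuccOrder X] [WellFoundedLT X]
  [TopologicalSpace X] [OrderTopology X] [CompactSpace X]

/-- the supremum of `Q` over all finite chains containing the top -/
noncomputable def SQ (ξ f : X → ℝ) : ℝ := ⨆ A : {A : Finset X // ⊤ ∈ A}, Q ξ f A

lemma SQ_bdd {ξ f : X → ℝ} (hξ2 : ∀ b, ξ b ≤ 2) (hf : InJ f) :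
    BddAbove (Set.range (fun A : {A : Finset X // ⊤ ∈ A} => Q ξ f A)) := by
  refine ⟨5 * sSup (VS f), ?_⟩
  rintro _ ⟨A, rfl⟩
  exact Q_le hξ2 hf.bdd A

lemma Q_le_SQ {ξ f : X → ℝ} (hξ2 : ∀ b, ξ b ≤ 2) (hf : InJ f) {A : Finset X} (hA : ⊤ ∈ A) :
    Q ξ f A ≤ SQ ξ f :=
  le_ciSup (SQ_bdd hξ2 hf) (⟨A, hA⟩ : {A : Finset X // ⊤ ∈ A})

instance chainNonempty : Nonempty {A : Finset X // ⊤ ∈ A} := ⟨⟨{⊤}, mem_singleton_self _⟩⟩

lemma SQ_le {ξ f : X → ℝ} {c : ℝ} (h : ∀ A : Finset X, ⊤ ∈ A → Q ξ f A ≤ c) : SQ ξ f ≤ c :=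
  ciSup_le (fun A => h A A.2)

lemma SQ_nonneg {ξ f : X → ℝ} (hξ : ∀ b, 1 ≤ ξ b) : 0 ≤ SQ ξ f :=
  Real.iSup_nonneg (fun A => Q_nonneg hξ f A)

/-- the data: an ultrafilter and a family of nearly optimal chains -/
structure NearOpt (ξ f : X → ℝ) {ι : Type*} (U : Ultrafilter ι) (A : ι → Finset X) : Prop where
  top_mem : ∀ i, ⊤ ∈ A i
  lim : Tendsto (fun i => Q ξ f (A i)) U (𝓝 (SQ ξ f))

/-- plateau end data -/
structure PlEnd (f : X → ℝ) (l e : X) : Prop where
  le : l ≤ e
  const : ∀ z, l ≤ z → z ≤ e → f z = f l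
  jump : e ≠ ⊤ → dd f e ≠ 0

lemma exists_PlEnd {f : X → ℝ} (hf : InJ f) (l : X) : ∃ e, PlEnd f l e := by
  obtain ⟨e, h1, h2, h3⟩ := exists_plateau hf.cont l
  exact ⟨e, h1, h2, h3⟩

lemma exists_lim {ι : Type*} (U : Ultrafilter ι) (x : ι → X) : ∃ l, Tendsto x U (𝓝 l) := by
  obtain ⟨l, _, hl⟩ := (isCompact_univ (X := X)).ultrafilter_le_nhds (U.map x) (by simp)
  exact ⟨l, hl⟩

lemma ev_le {ι : Type*} {U : Ultrafilter ι} {x : ι → X} {l : X} (h : Tendsto x U (𝓝 l)) :
    ∀ᶠ i in (U : Filter ι), x i ≤ l := h (Iic_mem_nhds' l)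

/-- points between `x i → l` and the end of the plateau have values tending to `f l` -/
lemma lim_between {ι : Type*} {U : Ultrafilter ι} {f : X → ℝ} (hf : InJ f) {l e : X}
    (hpl : PlEnd f l e) {x v : ι → X} (hx : Tendsto x U (𝓝 l))
    (hv : ∀ᶠ i in (U : Filter ι), x i ≤ v i ∧ v i ≤ e) :
    Tendsto (fun i => f (v i)) U (𝓝 (f l)) := by
  have h1 : Tendsto (fun i => min (v i) l) U (𝓝 l) := by
    apply tendsto_of_tendsto_of_tendsto_of_le_of_le' hx tendsto_const_nhds
    · filter_upwards [hv, ev_le hx] with i hi hi2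
      exact le_min hi.1 hi2
    · filter_upwards with i
      exact min_le_right _ _
  have h2 : Tendsto (fun i => f (min (v i) l)) U (𝓝 (f l)) := (hf.cont.tendsto l).comp h1
  apply h2.congr'
  filter_upwards [hv] with i hi
  rcases le_total (v i) l with h | h
  · rw [min_eq_left h]
  · rw [min_eq_right h, hpl.const _ h hi.2]

lemma abs_sq_sub_sq (a b : ℝ) : |a ^ 2 - b ^ 2| = |a - b| * |a + b| := by
  rw [← abs_mul]; congr 1; ring

lemma abs_kk_sub {f : X → ℝ} {M : ℝ} (hM : ∀ x, |f x| ≤ M) (e v z : X) :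
    |kk f e z - kk f v z| ≤ 12 * M * |f v - f e| := by
  have h0 : |(f z - f e) ^ 2 - (f z - f v) ^ 2| ≤ 4 * M * |f v - f e| := by
    rw [abs_sq_sub_sq]
    have e1 : (f z - f e) - (f z - f v) = f v - f e := by ring
    rw [e1, mul_comm]
    apply mul_le_mul_of_nonneg_right _ (abs_nonneg _)
    have h1 := abs_le.mp (hM z)
    have h2 := abs_le.mp (hM e)
    have h3 := abs_le.mp (hM v)
    rw [abs_le]; constructor <;> linarith
  have h1 := abs_F_sub_left (f z - f e) (f z - f v) (dd f z)
  have h2 := wt_le_two z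
  have h3 := one_le_wt z
  have h4 : kk f e z - kk f v z = wt z * ((f z - f e) ^ 2 - (f z - f v) ^ 2) +
      (F (f z - f e) (dd f z) - F (f z - f v) (dd f z)) := by unfold kk; ring
  rw [h4]
  refine (abs_add_le _ _).trans ?_
  rw [abs_mul, abs_of_nonneg (by linarith : 0 ≤ wt z)]
  have h5 := abs_nonneg ((f z - f e) ^ 2 - (f z - f v) ^ 2)
  nlinarith

/-- the end of the plateau belongs to nearly optimal chains -/
lemma lemM {ξ f : X → ℝ} (hξ : ∀ b, 1 ≤ ξ b) (hξ2 : ∀ b, ξ b ≤ 2) (hf : InJ f) {ι : Type*}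
    {U : Ultrafilter ι} {A : ι → Finset X} (hA : NearOpt ξ f U A) {x : ι → X}
    (hx : ∀ᶠ i in (U : Filter ι), x i ∈ A i) {l e : X} (hl : Tendsto x U (𝓝 l))
    (hpl : PlEnd f l e) :
    ∀ᶠ i in (U : Filter ι), e ∈ A i := by
  by_cases het : e = ⊤
  · rw [het]; exact Filter.Eventually.of_forall hA.top_mem
  by_contra hcon
  have hcon' : ∀ᶠ i in (U : Filter ι), e ∉ A i := Ultrafilter.eventually_not.mpr hcon
  obtain ⟨M, hM0, hM⟩ := hf.exists_bound
  have het' : e < ⊤ := lt_top_iff_ne_top.mpr het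
  set v : ι → X := fun i => pv (A i) e with hv
  have hlt : ∀ᶠ i in (U : Filter ι), x i ∈ A i ∧ e ∉ A i ∧ x i < e := by
    filter_upwards [hcon', hx, ev_le hl] with i h1 h2 h3
    refine ⟨h2, h1, lt_of_le_of_ne (h3.trans hpl.le) ?_⟩
    intro h; exact h1 (h ▸ h2)
  have hvlim : Tendsto (fun i => f (v i)) U (𝓝 (f l)) := by
    apply lim_between hf hpl hl
    filter_upwards [hlt] with i hi
    exact ⟨le_pv hi.1 hi.2.2, pv_le _ _⟩
  have hfe : f e = f l := hpl.const e hpl.le le_rfl
  have hgain : ∀ᶠ i in (U : Filter ι), Q ξ f (A i) + (dd f e) ^ 2 - 12 * M * |f (v i) - f e| ≤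
      SQ ξ f := by
    filter_upwards [hlt] with i hi
    obtain ⟨hxA, heA, hxe⟩ := hi
    have hne : ((A i).filter (e < ·)).Nonempty := ⟨⊤, by simp [hA.top_mem i, het']⟩
    set z := ((A i).filter (e < ·)).min' hne with hz
    have hzmem := Finset.min'_mem _ hne
    rw [← hz, mem_filter] at hzmem
    have hzmin : ∀ c ∈ A i, e < c → z ≤ c := by
      intro c hc hec
      apply Finset.min'_le
      simp [hc, hec]
    have hpz : pv (A i) z = v i := by
      have hs := pv_spec hxA hxe
      apply pv_eq hs.1 (hs.2.1.trans hzmem.2)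
      intro c hc hcz
      rcases lt_trichotomy c e with h | h | h
      · exact hs.2.2 c hc h
      · exact absurd (h ▸ hc) heA
      · exact absurd hcz (not_lt.mpr (hzmin c hc h))
    have h1 := cost_insert (kQ ξ f) heA hzmem.1 hzmem.2 hzmin
    have h2 : Q ξ f (insert e (A i)) ≤ SQ ξ f :=
      Q_le_SQ hξ2 hf (mem_insert_of_mem (hA.top_mem i))
    have h3 := abs_le.mp (abs_kk_sub hM e (v i) z)
    have h4 := kk_nonneg f (pv (A i) e) e
    have h5 := hξ e
    rw [hpz] at h1
    have h6 : Q ξ f (insert e (A i)) = Q ξ f (A i) + kQ ξ f (pv (A i) e) e +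
        (kQ ξ f e z - kQ ξ f (v i) z) := h1
    have h7 : kQ ξ f e z - kQ ξ f (v i) z = kk f e z - kk f (v i) z := by unfold kQ; ring
    have h8 : kQ ξ f (pv (A i) e) e = kk f (pv (A i) e) e + ξ e * (dd f e) ^ 2 := rfl
    nlinarith [sq_nonneg (dd f e)]
  have hlim : Tendsto (fun i => Q ξ f (A i) + (dd f e) ^ 2 - 12 * M * |f (v i) - f e|) U
      (𝓝 (SQ ξ f + (dd f e) ^ 2 - 12 * M * |f l - f e|)) :=
    (hA.lim.add tendsto_const_nhds).sub (((hvlim.sub tendsto_const_nhds).abs).const_mul _)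
  have := le_of_tendsto hlim hgain
  rw [hfe, sub_self, abs_zero, mul_zero, sub_zero] at this
  have hpos : 0 < (dd f e) ^ 2 := by have := hpl.jump het; positivity
  linarith

/-- a point strictly inside a plateau is reached by a small step only -/
lemma lemM2 {ξ f : X → ℝ} (hξ : ∀ b, 1 ≤ ξ b) (hξ2 : ∀ b, ξ b ≤ 2) (hf : InJ f) {ι : Type*}
    {U : Ultrafilter ι} {A : ι → Finset X} (hA : NearOpt ξ f U A) {x : ι → X}
    (hx : ∀ᶠ i in (U : Filter ι), x i ∈ A i) {l e : X} (hl : Tendsto x U (𝓝 l))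
    (hpl : PlEnd f l e) (hxe : ∀ᶠ i in (U : Filter ι), x i < e) :
    Tendsto (fun i => f (x i) - f (pv (A i) (x i))) U (𝓝 0) := by
  have heA := lemM hξ hξ2 hf hA hx hl hpl
  obtain ⟨M, hM0, hM⟩ := hf.exists_bound
  have hfe : f e = f l := hpl.const e hpl.le le_rfl
  -- the section
  set B : ι → Finset X := fun i => (A i).filter (fun y => x i ≤ y ∧ y ≤ e) with hB
  set B' : ι → Finset X := fun i => (A i).filter (fun y => x i ≤ y ∧ y < e) with hB'
  set C : ι → Finset X := fun i => B' i ∪ (B' i).image Order.succ with hC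
  have hsmall : ∀ D : ι → Finset X, (∀ i, ∀ b ∈ D i, x i ≤ b ∧ b ≤ e) →
      Tendsto (fun i => VA f (D i)) U (𝓝 0) := by
    intro D hD
    rw [tendsto_order]
    constructor
    · intro a ha
      filter_upwards with i
      exact lt_of_lt_of_le ha (VA_nonneg _ _)
    · intro a ha
      have h1 := hl.eventually (tail_plateau hf hpl.const (half_pos ha))
      filter_upwards [h1] with i hi
      have := hi (D i) (hD i)
      linarith
  have hVB : Tendsto (fun i => VA f (B i)) U (𝓝 0) := by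
    apply hsmall
    intro i b hb
    exact (mem_filter.mp hb).2
  have hVC : Tendsto (fun i => VA f (C i)) U (𝓝 0) := by
    apply hsmall
    intro i b hb
    rw [hC] at hb
    rcases mem_union.mp hb with h | h
    · have := (mem_filter.mp h).2
      exact ⟨this.1, this.2.le⟩
    · obtain ⟨c, hc, rfl⟩ := mem_image.mp h
      have := (mem_filter.mp hc).2
      exact ⟨this.1.trans (Order.le_succ c), Order.succ_le_of_lt this.2⟩
  have hfx : Tendsto (fun i => f (x i)) U (𝓝 (f l)) := (hf.cont.tendsto l).comp hl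
  -- the main estimate
  set y : ι → ℝ := fun i => f e - f (pv (A i) (x i)) with hy
  set G : ι → ℝ := fun i => (wt e - 1) * (y i) ^ 2 + F (y i) (dd f e) with hG
  have hG0 : ∀ i, 0 ≤ G i := by
    intro i
    have h1 := one_le_wt e
    have h2 := F_nonneg (y i) (dd f e)
    have h3 : 0 ≤ (wt e - 1) * (y i) ^ 2 := mul_nonneg (by linarith) (sq_nonneg _)
    simp only [hG]; linarith
  have hmain : ∀ᶠ i in (U : Filter ι), G i ≤ (SQ ξ f - Q ξ f (A i)) + 3 * VA f (B i) +
      3 * VA f (C i) + 4 * M * |f (x i) - f e| + 2 * (f (x i) - f e) ^ 2 := by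
    filter_upwards [hx, heA, hxe] with i hxA heA hxe
    have hQS : Q ξ f (A i) ≤ SQ ξ f := Q_le_SQ hξ2 hf (hA.top_mem i)
    have hVB0 := VA_nonneg f (B i)
    have hVC0 := VA_nonneg f (C i)
    rcases (pv_le (A i) (x i)).lt_or_eq with hp | hp
    · set p := pv (A i) (x i) with hpdef
      have hpA : p ∈ A i := pv_mem hp
      set A' := (A i).filter (fun y => ¬ (x i ≤ y ∧ y < e)) with hA'
      have htop : ⊤ ∈ A' := by
        rw [hA', mem_filter]
        exact ⟨hA.top_mem i, fun h => absurd h.2 (not_lt.mpr le_top)⟩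
      have hpe : pv A' e = p := by
        apply pv_eq
        · rw [hA', mem_filter]
          exact ⟨hpA, fun h => absurd hp (not_lt.mpr h.1)⟩
        · exact hp.trans hxe
        · intro c hc hce
          rw [hA', mem_filter] at hc
          have hcx : c < x i := by
            by_contra hcon
            exact hc.2 ⟨not_lt.mp hcon, hce⟩
          exact le_pv hc.1 hcx
      have h1 := cost_remove (kQ ξ f) heA hxe
      rw [← hA', hpe] at h1
      have h2 : Q ξ f A' ≤ SQ ξ f := Q_le_SQ hξ2 hf htop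
      -- the sum over the section
      have hxB : x i ∈ B i := by rw [hB]; simp [hxA, hxe.le]
      have h3 : ∑ b ∈ (A i).filter (fun y => x i ≤ y ∧ y ≤ e), kQ ξ f (pv (A i) b) b ≤
          (f (x i) - f p) ^ 2 + 3 * VA f (B i) + 3 * VA f (C i) + ξ e * (dd f e) ^ 2 := by
        change ∑ b ∈ B i, kQ ξ f (pv (A i) b) b ≤ _
        have hsplit : ∑ b ∈ B i, kQ ξ f (pv (A i) b) b =
            ∑ b ∈ B i, kk f (pv (A i) b) b + ∑ b ∈ B i, ξ b * (dd f b) ^ 2 := by
          rw [← Finset.sum_add_distrib]; rfl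
        have hk1 : ∑ b ∈ B i, kk f (pv (A i) b) b ≤ (f (x i) - f p) ^ 2 + (dd f (x i)) ^ 2 +
            3 * VA f (B i) := by
          rw [← Finset.add_sum_erase _ _ hxB]
          have e1 : kk f (pv (A i) (x i)) (x i) ≤ (f (x i) - f p) ^ 2 + (dd f (x i)) ^ 2 := by
            have := F_le_right (f (x i) - f p) (dd f (x i))
            have hw : wt (x i) = 1 := wt_of_lt (lt_of_lt_of_le hxe le_top)
            unfold kk
            rw [hw, ← hpdef]; linarith
          have e2 : ∑ b ∈ (B i).erase (x i), kk f (pv (A i) b) b ≤ 3 * VA f (B i) := by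
            have e3 : VA f (B i) = ∑ b ∈ (B i).erase (x i), kV f (pv (A i) b) b := by
              unfold VA cost
              rw [← Finset.add_sum_erase _ _ hxB]
              have e4 : pv (B i) (x i) = x i := by
                apply pv_eq_self
                intro c hc
                rw [hB] at hc
                exact (mem_filter.mp hc).2.1
              rw [e4, kV_self, zero_add]
              apply Finset.sum_congr rfl
              intro b hb
              obtain ⟨hbx, hbB⟩ := mem_erase.mp hb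
              have hbB' := hbB
              rw [hB] at hbB'
              obtain ⟨hbA, hxb, hbe⟩ := mem_filter.mp hbB'
              congr 1
              apply pv_congr_of_mem hxB hxA (lt_of_le_of_ne hxb (Ne.symm hbx))
              intro c hc hcb
              rw [hB]
              simp [hc.le, (hcb.trans_le hbe).le]
            rw [e3, Finset.mul_sum]
            apply Finset.sum_le_sum
            intro b _
            exact kk_le f _ _
          linarith
        have hk2 : ∑ b ∈ B i, ξ b * (dd f b) ^ 2 ≤ 2 * ∑ b ∈ B' i, (dd f b) ^ 2 +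
            ξ e * (dd f e) ^ 2 := by
          have heB : e ∈ B i := by rw [hB]; simp [heA, hxe.le]
          rw [← Finset.add_sum_erase _ _ heB]
          have : (B i).erase e = B' i := by
            rw [hB, hB']
            ext c
            simp only [mem_erase, mem_filter]
            constructor
            · rintro ⟨h1, h2, h3, h4⟩
              exact ⟨h2, h3, lt_of_le_of_ne h4 h1⟩
            · rintro ⟨h1, h2, h3⟩
              exact ⟨h3.ne, h1, h2, h3.le⟩
          rw [this, Finset.mul_sum, add_comm]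
          gcongr with b _
          exact hξ2 b
        have hk3 : ∑ b ∈ B' i, (dd f b) ^ 2 ≤ VA f (C i) := sum_dd_le f (B' i)
        have hk4 : (dd f (x i)) ^ 2 ≤ ∑ b ∈ B' i, (dd f b) ^ 2 := by
          apply Finset.single_le_sum (f := fun b => (dd f b) ^ 2)
            (fun b _ => sq_nonneg (dd f b))
          rw [hB']; simp [hxA, hxe]
        rw [hsplit]; linarith
      have h4 : Q ξ f A' = Q ξ f (A i) - ∑ b ∈ (A i).filter (fun y => x i ≤ y ∧ y ≤ e),
          kQ ξ f (pv (A i) b) b + kQ ξ f p e := h1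
      have h5 : kQ ξ f p e = wt e * (f e - f p) ^ 2 + F (f e - f p) (dd f e) +
          ξ e * (dd f e) ^ 2 := rfl
      have h6 : |(f e - f p) ^ 2 - (f (x i) - f p) ^ 2| ≤ 4 * M * |f (x i) - f e| := by
        rw [abs_sq_sub_sq]
        have e1 : (f e - f p) - (f (x i) - f p) = -(f (x i) - f e) := by ring
        rw [e1, abs_neg, mul_comm]
        apply mul_le_mul_of_nonneg_right _ (abs_nonneg _)
        have h1 := abs_le.mp (hM (x i))
        have h2 := abs_le.mp (hM e)
        have h3 := abs_le.mp (hM p)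
        rw [abs_le]; constructor <;> linarith
      have h7 := (abs_le.mp h6).1
      have h8 : G i = (wt e - 1) * (f e - f p) ^ 2 + F (f e - f p) (dd f e) := rfl
      rw [h8]
      nlinarith [sq_nonneg (f (x i) - f e)]
    · have h1 : y i = f e - f (x i) := by rw [hy]; simp only [hp]
      have h2 := F_le_left (y i) (dd f e)
      have h3 := wt_le_two e
      have h4 : 0 ≤ 4 * M * |f (x i) - f e| := by positivity
      have h5 : (y i) ^ 2 = (f (x i) - f e) ^ 2 := by rw [h1]; ring
      have h6 : (wt e - 1) * (y i) ^ 2 ≤ (y i) ^ 2 := by nlinarith [sq_nonneg (y i)]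
      simp only [hG]
      linarith
  have hGlim : Tendsto G U (𝓝 0) := by
    have hup : Tendsto (fun i => (SQ ξ f - Q ξ f (A i)) + 3 * VA f (B i) +
      3 * VA f (C i) + 4 * M * |f (x i) - f e| + 2 * (f (x i) - f e) ^ 2) U
      (𝓝 ((SQ ξ f - SQ ξ f) + 3 * 0 + 3 * 0 + 4 * M * |f l - f e| + 2 * (f l - f e) ^ 2)) :=
      (((((tendsto_const_nhds.sub hA.lim).add (hVB.const_mul 3)).add (hVC.const_mul 3)).add
        (((hfx.sub tendsto_const_nhds).abs).const_mul _)).add
        (((hfx.sub tendsto_const_nhds).pow 2).const_mul _))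
    have hz : (SQ ξ f - SQ ξ f) + 3 * 0 + 3 * 0 + 4 * M * |f l - f e| + 2 * (f l - f e) ^ 2 = 0 := by
      rw [hfe]; simp
    rw [hz] at hup
    exact tendsto_of_tendsto_of_tendsto_of_le_of_le' tendsto_const_nhds hup
      (Filter.Eventually.of_forall hG0) hmain
  -- from `G → 0` to `y → 0`
  have hy2 : ∃ K : ℝ, ∀ i, (y i) ^ 2 ≤ K * G i := by
    by_cases het : e = ⊤
    · refine ⟨1, fun i => ?_⟩
      have := F_nonneg (y i) (dd f e)
      simp only [hG, het, wt_top]
      rw [het] at this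
      linarith
    · have hd := hpl.jump het
      have hdd : 0 < (dd f e) ^ 2 := by positivity
      refine ⟨(4 * M ^ 2 + (dd f e) ^ 2) / (dd f e) ^ 2, fun i => ?_⟩
      have hyM : (y i) ^ 2 ≤ 4 * M ^ 2 := by
        have h1 := abs_le.mp (hM e)
        have h2 := abs_le.mp (hM (pv (A i) (x i)))
        have h3 : |y i| ≤ 2 * M := by
          rw [hy, abs_le]; constructor <;> simp only <;> linarith
        calc (y i) ^ 2 = |y i| ^ 2 := (sq_abs _).symm
          _ ≤ (2 * M) ^ 2 := pow_le_pow_left₀ (abs_nonneg _) h3 2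
          _ = 4 * M ^ 2 := by ring
      have hF : F (y i) (dd f e) ≤ G i := by
        have : 0 ≤ (wt e - 1) * (y i) ^ 2 := mul_nonneg (by linarith [one_le_wt e]) (sq_nonneg _)
        simp only [hG]; linarith
      have hF2 : (y i) ^ 2 * (dd f e) ^ 2 = F (y i) (dd f e) * ((y i) ^ 2 + (dd f e) ^ 2) := by
        unfold F
        have : (y i) ^ 2 + (dd f e) ^ 2 ≠ 0 := by positivity
        field_simp
      rw [div_mul_eq_mul_div, le_div_iff₀ hdd, hF2]
      have hFn := F_nonneg (y i) (dd f e)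
      calc F (y i) (dd f e) * ((y i) ^ 2 + (dd f e) ^ 2) ≤
          F (y i) (dd f e) * (4 * M ^ 2 + (dd f e) ^ 2) := by gcongr
        _ ≤ G i * (4 * M ^ 2 + (dd f e) ^ 2) := by gcongr
        _ = _ := by ring
  obtain ⟨K, hK⟩ := hy2
  have hylim2 : Tendsto (fun i => (y i) ^ 2) U (𝓝 0) := by
    have h1 : Tendsto (fun i => K * G i) U (𝓝 (K * 0)) := hGlim.const_mul K
    rw [mul_zero] at h1
    exact tendsto_of_tendsto_of_tendsto_of_le_of_le tendsto_const_nhds h1
      (fun i => sq_nonneg _) hK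
  have hylim : Tendsto y U (𝓝 0) := by
    have h1 : Tendsto (fun i => √((y i) ^ 2)) U (𝓝 (√0)) :=
      (Real.continuous_sqrt.tendsto 0).comp hylim2
    rw [Real.sqrt_zero] at h1
    simp only [Real.sqrt_sq_eq_abs] at h1
    exact (tendsto_zero_iff_abs_tendsto_zero _).mpr h1
  have hfin : Tendsto (fun i => y i - (f e - f (x i))) U (𝓝 (0 - (f e - f l))) :=
    hylim.sub (tendsto_const_nhds.sub hfx)
  rw [hfe, sub_self, sub_zero] at hfin
  apply hfin.congr
  intro i
  simp only [hy]
  rw [hfe]; ring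

end Pool.Agent.LongJames
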