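import Mathlib
import Pool.Agent.Lib_helper81.LongJames.Key

set_option autoImplicit false
set_option linter.unusedSectionVars false

namespace Pool.Agent.LongJames

open Finset Filter Topology

variable {X : Type*} [LinearOrder X] [OrderTop X] [SuccOrder X] [WellFoundedLT X]
  [TopologicalSpace X] [OrderTopology X] [CompactSpace X]

/-- no tie at `e`: nearly optimal chains agree about `e` -/
def NoTie (ξ f : X → ℝ) (e : X) : Prop :=
  ∃ δ > 0, (∀ A : Finset X, ⊤ ∈ A → SQ ξ f - δ < Q ξ f A → e ∈ A) ∨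
    (∀ A : Finset X, ⊤ ∈ A → SQ ξ f - δ < Q ξ f A → e ∉ A)

/-- no ties at all -/
def Good (ξ f : X → ℝ) : Prop := ∀ e, dd f e ≠ 0 → NoTie ξ f e

lemma NearOpt.ev {ξ f : X → ℝ} {ι : Type*} {U : Ultrafilter ι} {A : ι → Finset X}
    (hA : NearOpt ξ f U A) {δ : ℝ} (hδ : 0 < δ) :
    ∀ᶠ i in (U : Filter ι), SQ ξ f - δ < Q ξ f (A i) :=
  hA.lim.eventually (lt_mem_nhds (by linarith))

lemma lemN {ξ f : X → ℝ} {ι : Type*} {U : Ultrafilter ι} {A A' : ι → Finset X}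
    (hA : NearOpt ξ f U A) (hA' : NearOpt ξ f U A') {e : X} (he : NoTie ξ f e)
    (h : ∀ᶠ i in (U : Filter ι), e ∈ A i) : ∀ᶠ i in (U : Filter ι), e ∈ A' i := by
  obtain ⟨δ, hδ, h1 | h1⟩ := he
  · filter_upwards [hA'.ev hδ] with i hi
    exact h1 _ (hA'.top_mem i) hi
  · exfalso
    obtain ⟨i, hi1, hi2⟩ := (h.and (hA.ev hδ)).exists
    exact h1 _ (hA.top_mem i) hi2 hi1

lemma lemN' {ξ f : X → ℝ} (hG : Good ξ f) {ι : Type*} {U : Ultrafilter ι} {A A' : ι → Finset X}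
    (hA : NearOpt ξ f U A) (hA' : NearOpt ξ f U A') {e : X} (he : e ≠ ⊤ → dd f e ≠ 0)
    (h : ∀ᶠ i in (U : Filter ι), e ∈ A i) : ∀ᶠ i in (U : Filter ι), e ∈ A' i := by
  by_cases het : e = ⊤
  · rw [het]; exact Filter.Eventually.of_forall hA'.top_mem
  · exact lemN hA hA' (hG e (he het)) h

/-- the next element of `A` after `c` -/
noncomputable def nx (A : Finset X) (c : X) : X :=
  if h : (A.filter (c < ·)).Nonempty then (A.filter (c < ·)).min' h else ⊤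

lemma nx_spec {A : Finset X} {c d : X} (hd : d ∈ A) (hcd : c < d) :
    nx A c ∈ A ∧ c < nx A c ∧ ∀ y ∈ A, c < y → nx A c ≤ y := by
  have hne : (A.filter (c < ·)).Nonempty := ⟨d, by simp [hd, hcd]⟩
  have h1 := Finset.min'_mem _ hne
  rw [mem_filter] at h1
  have h2 : nx A c = (A.filter (c < ·)).min' hne := by rw [nx, dif_pos hne]
  rw [h2]
  refine ⟨h1.1, h1.2, fun y hy hcy => ?_⟩
  apply Finset.min'_le
  simp [hy, hcy]

lemma pv_nx {A : Finset X} {c d : X} (hc : c ∈ A) (hd : d ∈ A) (hcd : c < d) :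
    pv A (nx A c) = c := by
  have h := nx_spec hd hcd
  apply pv_eq hc h.2.1
  intro y hy hyn
  by_contra hcy
  push Not at hcy
  exact absurd hyn (not_lt.mpr (h.2.2 y hy hcy))

/-- dichotomy for consecutive pairs -/
lemma lemP {ξ f : X → ℝ} (hξ : ∀ b, 1 ≤ ξ b) (hξ2 : ∀ b, ξ b ≤ 2) (hf : InJ f) {ι : Type*}
    {U : Ultrafilter ι} {A : ι → Finset X} (hA : NearOpt ξ f U A) {b : ι → X}
    (hb : ∀ᶠ i in (U : Filter ι), b i ∈ A i) :
    Tendsto (fun i => f (b i) - f (pv (A i) (b i))) U (𝓝 0) ∨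
    ∃ a0 b0, a0 < b0 ∧ f a0 ≠ f b0 ∧ dd f a0 ≠ 0 ∧ (b0 ≠ ⊤ → dd f b0 ≠ 0) ∧
      ∀ᶠ i in (U : Filter ι), pv (A i) (b i) = a0 ∧ b i = b0 := by
  obtain ⟨α, hα⟩ := exists_lim U (fun i => pv (A i) (b i))
  obtain ⟨β, hβ⟩ := exists_lim U b
  have hfa : Tendsto (fun i => f (pv (A i) (b i))) U (𝓝 (f α)) := (hf.cont.tendsto α).comp hα
  have hfb : Tendsto (fun i => f (b i)) U (𝓝 (f β)) := (hf.cont.tendsto β).comp hβ
  by_cases hab : f α = f β
  · left
    have := hfb.sub hfa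
    rwa [hab, sub_self] at this
  right
  have hlt : ∀ᶠ i in (U : Filter ι), pv (A i) (b i) < b i := by
    by_contra hcon
    have hcon' := Ultrafilter.eventually_not.mpr hcon
    apply hab
    have : Tendsto (fun i => pv (A i) (b i)) U (𝓝 β) := by
      apply hβ.congr'
      filter_upwards [hcon'] with i hi
      exact le_antisymm (not_lt.mp hi) (pv_le _ _)
    rw [tendsto_nhds_unique hα this]
  have haA : ∀ᶠ i in (U : Filter ι), pv (A i) (b i) ∈ A i := by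
    filter_upwards [hlt] with i hi
    exact pv_mem hi
  have hαβ : α ≤ β := le_of_tendsto_of_tendsto hα hβ (by
    filter_upwards with i
    exact pv_le _ _)
  obtain ⟨eα, hpα⟩ := exists_PlEnd hf α
  obtain ⟨eβ, hpβ⟩ := exists_PlEnd hf β
  have heα := lemM hξ hξ2 hf hA haA hα hpα
  have heβ := lemM hξ hξ2 hf hA hb hβ hpβ
  -- the left end point
  have ha : ∀ᶠ i in (U : Filter ι), pv (A i) (b i) = eα := by
    by_contra hcon
    have hcon' := Ultrafilter.eventually_not.mpr hcon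
    have h1 : ∀ᶠ i in (U : Filter ι), b i ≤ eα := by
      filter_upwards [hcon', ev_le hα, heα, hlt] with i h1 h2 h3 _
      have h5 : pv (A i) (b i) < eα := lt_of_le_of_ne (h2.trans hpα.le) h1
      by_contra h6
      push Not at h6
      exact absurd (le_pv h3 h6) (not_le.mpr h5)
    have h2 : β ≤ eα := le_of_tendsto hβ h1
    exact hab (hpα.const β hαβ h2).symm
  have heαt : eα ≠ ⊤ := by
    obtain ⟨i, h1, h2⟩ := (ha.and hlt).exists
    rw [h1] at h2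
    exact (lt_of_lt_of_le h2 le_top).ne
  -- the right end point
  have hb' : ∀ᶠ i in (U : Filter ι), b i = eβ := by
    by_contra hcon
    have hcon' := Ultrafilter.eventually_not.mpr hcon
    have h1 : ∀ᶠ i in (U : Filter ι), b i < eβ := by
      filter_upwards [hcon', ev_le hβ] with i h1 h2
      exact lt_of_le_of_ne (h2.trans hpβ.le) h1
    have h2 := lemM2 hξ hξ2 hf hA hb hβ hpβ h1
    have h3 := tendsto_nhds_unique h2 (hfb.sub hfa)
    exact hab (by linarith)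
  refine ⟨eα, eβ, ?_, ?_, hpα.jump heαt, hpβ.jump, ha.and hb'⟩
  · obtain ⟨i, h1, h2, h3⟩ := (ha.and (hb'.and hlt)).exists
    rw [h1, h2] at h3
    exact h3
  · rw [hpα.const eα hpα.le le_rfl, hpβ.const eβ hpβ.le le_rfl]
    exact hab

/-- uniqueness of consecutive pairs with a genuine step -/
lemma lemU {ξ f : X → ℝ} (hξ : ∀ b, 1 ≤ ξ b) (hξ2 : ∀ b, ξ b ≤ 2) (hf : InJ f)
    (hG : Good ξ f) {ι : Type*}
    {U : Ultrafilter ι} {A A' : ι → Finset X} (hA : NearOpt ξ f U A) (hA' : NearOpt ξ f U A')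
    {c g : X} (hcg : c < g) (hfcg : f c ≠ f g) (hdc : dd f c ≠ 0) (hdg : g ≠ ⊤ → dd f g ≠ 0)
    (h : ∀ᶠ i in (U : Filter ι), g ∈ A i ∧ pv (A i) g = c) :
    ∀ᶠ i in (U : Filter ι), g ∈ A' i ∧ pv (A' i) g = c := by
  have hcA : ∀ᶠ i in (U : Filter ι), c ∈ A i := by
    filter_upwards [h] with i hi
    have : pv (A i) g < g := by rw [hi.2]; exact hcg
    have := pv_mem this
    rwa [hi.2] at this
  have hcA' := lemN' hG hA hA' (fun _ => hdc) hcA
  have hgA' := lemN' hG hA hA' hdg (h.mono (fun i hi => hi.1))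
  by_contra hcon
  have hcon' := Ultrafilter.eventually_not.mpr hcon
  have hev : ∀ᶠ i in (U : Filter ι), c ∈ A' i ∧ g ∈ A' i ∧ nx (A' i) c < g := by
    filter_upwards [hcon', hcA', hgA'] with i h1 h2 h3
    refine ⟨h2, h3, ?_⟩
    have h4 := pv_spec h2 hcg
    have h5 : pv (A' i) g ≠ c := fun h' => h1 ⟨h3, h'⟩
    have h6 : c < pv (A' i) g := lt_of_le_of_ne (h4.2.2 c h2 hcg) (Ne.symm h5)
    exact lt_of_le_of_lt ((nx_spec h3 hcg).2.2 _ h4.1 h6) h4.2.1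
  obtain ⟨l, hl⟩ := exists_lim U (fun i => nx (A' i) c)
  obtain ⟨e, hpl⟩ := exists_PlEnd hf l
  have hy : ∀ᶠ i in (U : Filter ι), nx (A' i) c ∈ A' i := by
    filter_upwards [hev] with i hi
    exact (nx_spec hi.2.1 hcg).1
  have heA' := lemM hξ hξ2 hf hA' hy hl hpl
  have heA := lemN' hG hA' hA hpl.jump heA'
  have hge : g ≤ e := by
    obtain ⟨i, h1, h2, h3, h4⟩ := (heA.and (h.and (hev.and (ev_le hl)))).exists
    by_contra hlt
    push Not at hlt
    have h5 : c < e := lt_of_lt_of_le (nx_spec h3.2.1 hcg).2.1 (h4.trans hpl.le)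
    have h6 := le_pv h1 hlt
    rw [h2.2] at h6
    exact absurd h5 (not_lt.mpr h6)
  have hlg : l ≤ g := le_of_tendsto hl (by
    filter_upwards [hev] with i hi
    exact hi.2.2.le)
  have hfg : f g = f l := hpl.const g hlg hge
  have hye : ∀ᶠ i in (U : Filter ι), nx (A' i) c < e := by
    filter_upwards [hev] with i hi
    exact lt_of_lt_of_le hi.2.2 hge
  have h1 := lemM2 hξ hξ2 hf hA' hy hl hpl hye
  have h2 : Tendsto (fun i => f (nx (A' i) c) - f (pv (A' i) (nx (A' i) c))) U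
      (𝓝 (f l - f c)) := by
    apply ((((hf.cont.tendsto l).comp hl)).sub tendsto_const_nhds).congr'
    filter_upwards [hev] with i hi
    rw [pv_nx hi.1 hi.2.1 hcg]; rfl
  have h3 := tendsto_nhds_unique h1 h2
  apply hfcg
  rw [hfg]; linarith

/-- combination of `lemP` and `lemU` -/
lemma lemPU {ξ f : X → ℝ} (hξ : ∀ b, 1 ≤ ξ b) (hξ2 : ∀ b, ξ b ≤ 2) (hf : InJ f)
    (hG : Good ξ f) {ι : Type*}
    {U : Ultrafilter ι} {A A' : ι → Finset X} (hA : NearOpt ξ f U A) (hA' : NearOpt ξ f U A')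
    {b b' : ι → X} (hb : ∀ᶠ i in (U : Filter ι), b i ∈ A i)
    (hb' : ∀ᶠ i in (U : Filter ι), b' i ∈ A' i)
    (htr : ∀ i a0 b0, a0 < b0 → b i = b0 → pv (A i) b0 = a0 → b0 ∈ A' i → pv (A' i) b0 = a0 →
      b' i = b0)
    (htr' : ∀ i a0 b0, a0 < b0 → b' i = b0 → pv (A' i) b0 = a0 → b0 ∈ A i → pv (A i) b0 = a0 →
      b i = b0) :
    (Tendsto (fun i => f (b i) - f (pv (A i) (b i))) U (𝓝 0) ∧
      Tendsto (fun i => f (b' i) - f (pv (A' i) (b' i))) U (𝓝 0)) ∨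
    ∃ a0 b0, a0 < b0 ∧ f a0 ≠ f b0 ∧ ∀ᶠ i in (U : Filter ι),
      b i = b0 ∧ pv (A i) b0 = a0 ∧ b' i = b0 ∧ pv (A' i) b0 = a0 := by
  rcases lemP hξ hξ2 hf hA hb with h1 | ⟨a0, b0, hab, hfab, hda, hdb, hev⟩
  · rcases lemP hξ hξ2 hf hA' hb' with h2 | ⟨a0, b0, hab, hfab, hda, hdb, hev⟩
    · exact Or.inl ⟨h1, h2⟩
    · right
      have hev2 : ∀ᶠ i in (U : Filter ι), b0 ∈ A' i ∧ pv (A' i) b0 = a0 := by
        filter_upwards [hev, hb'] with i hi hi2
        rw [← hi.2]; exact ⟨hi2, hi.1⟩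
      have h3 := lemU hξ hξ2 hf hG hA' hA hab hfab hda hdb hev2
      refine ⟨a0, b0, hab, hfab, ?_⟩
      filter_upwards [hev, hev2, h3] with i h4 h5 h6
      exact ⟨htr' i a0 b0 hab h4.2 h5.2 h6.1 h6.2, h6.2, h4.2, h5.2⟩
  · right
    have hev2 : ∀ᶠ i in (U : Filter ι), b0 ∈ A i ∧ pv (A i) b0 = a0 := by
      filter_upwards [hev, hb] with i hi hi2
      rw [← hi.2]; exact ⟨hi2, hi.1⟩
    have h3 := lemU hξ hξ2 hf hG hA hA' hab hfab hda hdb hev2
    refine ⟨a0, b0, hab, hfab, ?_⟩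
    filter_upwards [hev, hev2, h3] with i h4 h5 h6
    exact ⟨h4.2, h5.2, htr i a0 b0 hab h4.2 h5.2 h6.1 h6.2, h6.2⟩

end Pool.Agent.LongJames
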