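import Mathlib
import Pool.Agent.Lib_helper81.LongJames.Key2

set_option autoImplicit false
set_option linter.unusedSectionVars false

namespace Pool.Agent.LongJames

open Finset Filter Topology

variable {X : Type*} [LinearOrder X] [OrderTop X] [SuccOrder X] [WellFoundedLT X]
  [TopologicalSpace X] [OrderTopology X] [CompactSpace X]

lemma pert_le (f : X → ℝ) (t : ℝ) {g x : X} (h : x ≤ g) : (f + t • ee g) x = f x + t := by
  simp [ee_of_le h]

lemma pert_gt (f : X → ℝ) (t : ℝ) {g x : X} (h : g < x) : (f + t • ee g) x = f x := by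
  simp [ee_of_gt h]

lemma dd_pert_of_ne (f : X → ℝ) (t : ℝ) {g x : X} (h : x ≠ g) :
    dd (f + t • ee g) x = dd f x := by
  unfold dd
  rcases lt_or_gt_of_ne h with h1 | h1
  · rw [pert_le f t h1.le, pert_le f t (Order.succ_le_of_lt h1)]; ring
  · rw [pert_gt f t h1, pert_gt f t (lt_of_lt_of_le h1 (Order.le_succ x))]

lemma dd_pert_self (f : X → ℝ) (t : ℝ) {g : X} (hg : g < ⊤) :
    dd (f + t • ee g) g = dd f g - t := by
  unfold dd
  have h1 : g < Order.succ g :=
    Order.lt_succ_of_not_isMax (fun h => hg.ne (isMax_iff_eq_top.mp h))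
  rw [pert_le f t le_rfl, pert_gt f t h1]; ring

/-- the change of the crossing term -/
noncomputable def XX (w Δ d t : ℝ) : ℝ := w * ((Δ - t) ^ 2 - Δ ^ 2) + (F (Δ - t) d - F Δ d)

/-- the change of the term of the point itself -/
noncomputable def YY (x Δ d t : ℝ) : ℝ := (F Δ (d - t) - F Δ d) + x * ((d - t) ^ 2 - d ^ 2)

/-- crossing part -/
noncomputable def PX (f : X → ℝ) (g : X) (t : ℝ) (A : Finset X) : ℝ :=
  if pv A (nx A g) ≤ g then
    XX (wt (nx A g)) (f (nx A g) - f (pv A (nx A g))) (dd f (nx A g)) t else 0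

open Classical in
/-- own part -/
noncomputable def PY (ξ f : X → ℝ) (g : X) (t : ℝ) (A : Finset X) : ℝ :=
  if g ∈ A then YY (ξ g) (f g - f (pv A g)) (dd f g) t else 0

lemma Q_pert (ξ f : X → ℝ) {g : X} (hg : g < ⊤) (t : ℝ) {A : Finset X} (hA : ⊤ ∈ A) :
    Q ξ (f + t • ee g) A = Q ξ f A + PX f g t A + PY ξ f g t A := by
  classical
  obtain ⟨hbA, hgb, hmin⟩ := nx_spec hA hg
  set b := nx A g with hb
  -- terms of the other points
  have hother : ∀ c ∈ A, c ≠ b → c ≠ g →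
      kQ ξ (f + t • ee g) (pv A c) c = kQ ξ f (pv A c) c := by
    intro c hc hcb hcg
    have hd := dd_pert_of_ne f t hcg
    have hdiff : (f + t • ee g) c - (f + t • ee g) (pv A c) = f c - f (pv A c) := by
      rcases lt_or_ge g c with h | h
      · have hbc : b < c := lt_of_le_of_ne (hmin c hc h) (Ne.symm hcb)
        have hp : g < pv A c := hgb.trans_le (le_pv hbA hbc)
        rw [pert_gt f t h, pert_gt f t hp]
      · have hp : pv A c ≤ g := (pv_le A c).trans h
        rw [pert_le f t h, pert_le f t hp]; ring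
    unfold kQ kk
    rw [hd, hdiff]
  -- the crossing term
  have hX : kQ ξ (f + t • ee g) (pv A b) b = kQ ξ f (pv A b) b + PX f g t A := by
    have hd := dd_pert_of_ne f t hgb.ne'
    unfold PX
    rw [← hb]
    split_ifs with h
    · have hdiff : (f + t • ee g) b - (f + t • ee g) (pv A b) = f b - f (pv A b) - t := by
        rw [pert_gt f t hgb, pert_le f t h]; ring
      unfold kQ kk XX
      rw [hd, hdiff]; ring
    · push Not at h
      have hdiff : (f + t • ee g) b - (f + t • ee g) (pv A b) = f b - f (pv A b) := by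
        rw [pert_gt f t hgb, pert_gt f t h]
      unfold kQ kk
      rw [hd, hdiff]; ring
  have hY : g ∈ A → kQ ξ (f + t • ee g) (pv A g) g = kQ ξ f (pv A g) g + PY ξ f g t A := by
    intro hgA
    have hd := dd_pert_self f t hg
    have hdiff : (f + t • ee g) g - (f + t • ee g) (pv A g) = f g - f (pv A g) := by
      rw [pert_le f t le_rfl, pert_le f t (pv_le A g)]; ring
    unfold PY
    rw [if_pos hgA]
    unfold kQ kk YY
    rw [hd, hdiff]; ring
  have h1 : ∀ c ∈ A, kQ ξ (f + t • ee g) (pv A c) c = kQ ξ f (pv A c) c +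
      ((if c = b then PX f g t A else 0) + (if c = g then PY ξ f g t A else 0)) := by
    intro c hc
    by_cases hcb : c = b
    · have hcg : c ≠ g := by rw [hcb]; exact hgb.ne'
      rw [if_pos hcb, if_neg hcg, hcb, hX]; ring
    · by_cases hcg : c = g
      · rw [if_neg hcb, if_pos hcg, hcg, hY (hcg ▸ hc)]; ring
      · rw [if_neg hcb, if_neg hcg, hother c hc hcb hcg]; ring
  unfold Q cost
  rw [Finset.sum_congr rfl h1, Finset.sum_add_distrib, Finset.sum_add_distrib,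
    Finset.sum_ite_eq', Finset.sum_ite_eq', if_pos hbA]
  have : (if g ∈ A then PY ξ f g t A else 0) = PY ξ f g t A := by
    split_ifs with h
    · rfl
    · unfold PY; rw [if_neg h]
  rw [this]; ring

lemma abs_XX_le {w : ℝ} (hw1 : 1 ≤ w) (hw2 : w ≤ 2) (Δ d t : ℝ) :
    |XX w Δ d t| ≤ 3 * (2 * |Δ| * |t| + t ^ 2) := by
  have h1 : |(Δ - t) ^ 2 - Δ ^ 2| ≤ 2 * |Δ| * |t| + t ^ 2 := by
    have : (Δ - t) ^ 2 - Δ ^ 2 = -(2 * Δ * t) + t ^ 2 := by ring
    rw [this]
    refine (abs_add_le _ _).trans ?_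
    rw [abs_neg, abs_mul, abs_mul, abs_of_nonneg (sq_nonneg t), abs_of_pos (by norm_num : (0:ℝ) < 2)]
  have h2 := abs_F_sub_left (Δ - t) Δ d
  unfold XX
  refine (abs_add_le _ _).trans ?_
  rw [abs_mul, abs_of_nonneg (by linarith : 0 ≤ w)]
  have h3 := abs_nonneg ((Δ - t) ^ 2 - Δ ^ 2)
  nlinarith

lemma abs_YY_le {x : ℝ} (hx1 : 1 ≤ x) (hx2 : x ≤ 2) (Δ d t : ℝ) :
    |YY x Δ d t| ≤ |Δ| * |t| + 2 * (2 * |d| * |t| + t ^ 2) := by
  have h1 : |(d - t) ^ 2 - d ^ 2| ≤ 2 * |d| * |t| + t ^ 2 := by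
    have : (d - t) ^ 2 - d ^ 2 = -(2 * d * t) + t ^ 2 := by ring
    rw [this]
    refine (abs_add_le _ _).trans ?_
    rw [abs_neg, abs_mul, abs_mul, abs_of_nonneg (sq_nonneg t), abs_of_pos (by norm_num : (0:ℝ) < 2)]
  have h2 := abs_F_sub_right Δ (d - t) d
  have h3 : |d - t - d| = |t| := by rw [sub_sub_cancel_left, abs_neg]
  rw [h3] at h2
  unfold YY
  refine (abs_add_le _ _).trans ?_
  rw [abs_mul, abs_of_nonneg (by linarith : 0 ≤ x)]
  have h4 := abs_nonneg ((d - t) ^ 2 - d ^ 2)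
  nlinarith

lemma abs_pert_le {ξ f : X → ℝ} (hξ : ∀ b, 1 ≤ ξ b) (hξ2 : ∀ b, ξ b ≤ 2) {M : ℝ} (hM0 : 0 ≤ M)
    (hM : ∀ x, |f x| ≤ M) (g : X) (t : ℝ) (A : Finset X) :
    |PX f g t A| + |PY ξ f g t A| ≤ 22 * M * |t| + 5 * t ^ 2 := by
  have hdiff : ∀ x y, |f x - f y| ≤ 2 * M := by
    intro x y
    have h1 := abs_le.mp (hM x)
    have h2 := abs_le.mp (hM y)
    rw [abs_le]; constructor <;> linarith
  have h1 : |PX f g t A| ≤ 3 * (2 * (2 * M) * |t| + t ^ 2) := by
    unfold PX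
    split_ifs with h
    · refine (abs_XX_le (one_le_wt _) (wt_le_two _) _ _ _).trans ?_
      have := hdiff (nx A g) (pv A (nx A g))
      gcongr
    · rw [abs_zero]; positivity
  have h2 : |PY ξ f g t A| ≤ 2 * M * |t| + 2 * (2 * (2 * M) * |t| + t ^ 2) := by
    unfold PY
    split_ifs with h
    · refine (abs_YY_le (hξ g) (hξ2 g) _ _ _).trans ?_
      have e1 := hdiff g (pv A g)
      have e2 : |dd f g| ≤ 2 * M := hdiff _ _
      gcongr
    · rw [abs_zero]; positivity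
  linarith

/-- symmetric second differences of a differentiable function -/
lemma second_diff {φ : ℝ → ℝ} {φ' : ℝ} (h : HasDerivAt φ φ' 0) {κ : ℝ} (hκ : 0 < κ) :
    ∀ᶠ t in 𝓝[>] (0 : ℝ), φ t + φ (-t) - 2 * φ 0 ≤ κ * t := by
  have h2 : HasDerivAt (fun t => φ t + φ (-t)) 0 0 := by
    have h3 : HasDerivAt (fun t : ℝ => φ (-t)) (φ' * (-1)) 0 := by
      have h4 : HasDerivAt φ φ' (-(0 : ℝ)) := by rwa [neg_zero]
      exact h4.comp (0 : ℝ) (hasDerivAt_neg (0 : ℝ))
    have h5 := h.add h3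
    have h6 : φ' + φ' * (-1) = 0 := by ring
    rw [h6] at h5
    exact h5
  rw [hasDerivAt_iff_tendsto_slope] at h2
  have h3 : Tendsto (slope (fun t => φ t + φ (-t)) 0) (𝓝[>] 0) (𝓝 0) :=
    h2.mono_left (nhdsWithin_mono _ (fun x hx => ne_of_gt hx))
  have h4 := h3.eventually (gt_mem_nhds hκ)
  filter_upwards [h4, self_mem_nhdsWithin] with t ht ht0
  have ht0' : 0 < t := ht0
  rw [slope_def_field] at ht
  simp only [neg_zero, sub_zero] at ht
  rw [div_lt_iff₀ ht0'] at ht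
  linarith

lemma differentiable_F_left {r a : ℝ} (ha : a ≠ 0) : DifferentiableAt ℝ (fun x => F x r) a := by
  unfold F
  have : a ^ 2 + r ^ 2 ≠ 0 := by positivity
  fun_prop (disch := assumption)

lemma differentiable_F_right {r a : ℝ} (ha : a ≠ 0) : DifferentiableAt ℝ (fun x => F a x) r := by
  unfold F
  have : a ^ 2 + r ^ 2 ≠ 0 := by positivity
  fun_prop (disch := assumption)

lemma XX_second {w Δ d : ℝ} (hΔ : Δ ≠ 0) {κ : ℝ} (hκ : 0 < κ) :
    ∀ᶠ t in 𝓝[>] (0 : ℝ), XX w Δ d t + XX w Δ d (-t) ≤ κ * t := by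
  have h1 : DifferentiableAt ℝ (fun t => XX w Δ d t) 0 := by
    unfold XX
    have h2 : DifferentiableAt ℝ (fun t : ℝ => F (Δ - t) d) 0 := by
      have h3 : DifferentiableAt ℝ (fun x => F x d) (Δ - 0) := by
        rw [sub_zero]; exact differentiable_F_left hΔ
      exact h3.comp (0 : ℝ) (by fun_prop)
    fun_prop
  have h2 := second_diff h1.hasDerivAt hκ
  filter_upwards [h2] with t ht
  have : XX w Δ d 0 = 0 := by simp [XX]
  rw [this] at ht
  linarith

lemma YY_second {x Δ d : ℝ} (hΔ : Δ ≠ 0) {κ : ℝ} (hκ : 0 < κ) :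
    ∀ᶠ t in 𝓝[>] (0 : ℝ), YY x Δ d t + YY x Δ d (-t) ≤ κ * t := by
  have h1 : DifferentiableAt ℝ (fun t => YY x Δ d t) 0 := by
    unfold YY
    have h2 : DifferentiableAt ℝ (fun t : ℝ => F Δ (d - t)) 0 := by
      have h3 : DifferentiableAt ℝ (fun y => F Δ y) (d - 0) := differentiable_F_right hΔ
      exact h3.comp (0 : ℝ) (by fun_prop)
    fun_prop
  have h2 := second_diff h1.hasDerivAt hκ
  filter_upwards [h2] with t ht
  have : YY x Δ d 0 = 0 := by simp [YY]
  rw [this] at ht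
  linarith

lemma YY_second' {x Δ Δ' d t : ℝ} :
    YY x Δ d t + YY x Δ' d (-t) ≤ (|Δ| + |Δ'|) * |t| + 2 * x * t ^ 2 := by
  have h1 := (abs_le.mp (abs_F_sub_right Δ (d - t) d)).2
  have h2 := (abs_le.mp (abs_F_sub_right Δ' (d - -t) d)).2
  have h3 : |d - t - d| = |t| := by rw [sub_sub_cancel_left, abs_neg]
  have h4 : |d - -t - d| = |t| := by rw [sub_sub_cancel_left, neg_neg]
  rw [h3] at h1
  rw [h4] at h2
  unfold YY
  nlinarith

end Pool.Agent.LongJames
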