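import Mathlib
import Pool.Agent.Lib_helper81.LongJames.Diff

set_option autoImplicit false
set_option linter.unusedSectionVars false

namespace Pool.Agent.LongJames

open Finset Filter Topology

variable {X : Type*} [LinearOrder X] [OrderTop X] [SuccOrder X] [WellFoundedLT X]
  [TopologicalSpace X] [OrderTopology X] [CompactSpace X]

lemma exists_near {ξ f : X → ℝ} {δ : ℝ} (hδ : 0 < δ) :
    ∃ A : Finset X, ⊤ ∈ A ∧ SQ ξ f - δ < Q ξ f A := by
  obtain ⟨A, hA⟩ := exists_lt_of_lt_ciSup (show SQ ξ f - δ < SQ ξ f by linarith)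
  exact ⟨A, A.2, hA⟩

lemma cross_unique {A A' : Finset X} (hA : ⊤ ∈ A) {g : X} (hg : g < ⊤) {a0 b0 : X} (hab : a0 < b0)
    (h1 : nx A g = b0) (h2 : pv A b0 = a0) (h3 : b0 ∈ A') (h4 : pv A' b0 = a0) :
    nx A' g = b0 := by
  have hs := nx_spec hA hg
  rw [h1] at hs
  have ha0 : a0 ≤ g := by
    by_contra hcon
    push Not at hcon
    have hm : a0 ∈ A := by
      have : pv A b0 < b0 := by rw [h2]; exact hab
      have := pv_mem this
      rwa [h2] at this
    exact absurd (hs.2.2 a0 hm hcon) (not_le.mpr hab)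
  have hs' := nx_spec h3 hs.2.1
  apply le_antisymm (hs'.2.2 b0 h3 hs.2.1)
  by_contra hlt
  push Not at hlt
  have := le_pv hs'.1 hlt
  rw [h4] at this
  exact absurd hs'.2.1 (not_lt.mpr (this.trans ha0))

/-- symmetric second differences of `SQ` in the direction of an initial segment -/
theorem SQ_second {ξ f : X → ℝ} (hξ : ∀ b, 1 ≤ ξ b) (hξ2 : ∀ b, ξ b ≤ 2) (hf : InJ f)
    (hG : Good ξ f) {g : X} (hg : g < ⊤) {κ : ℝ} (hκ : 0 < κ) :
    ∀ᶠ t in 𝓝[>] (0 : ℝ),
      SQ ξ (f + t • ee g) + SQ ξ (f + (-t) • ee g) - 2 * SQ ξ f ≤ κ * t := by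
  by_contra hcon
  rw [Filter.not_eventually, Filter.frequently_iff_neBot] at hcon
  obtain ⟨U, hU⟩ : ∃ U : Ultrafilter ℝ, (U : Filter ℝ) ≤ 𝓝[>] (0 : ℝ) ⊓
      𝓟 {t | ¬ SQ ξ (f + t • ee g) + SQ ξ (f + (-t) • ee g) - 2 * SQ ξ f ≤ κ * t} :=
    Ultrafilter.exists_le _
  have hU1 : (U : Filter ℝ) ≤ 𝓝[>] (0 : ℝ) := hU.trans inf_le_left
  have hU2 : ∀ᶠ t in (U : Filter ℝ),
      ¬ SQ ξ (f + t • ee g) + SQ ξ (f + (-t) • ee g) - 2 * SQ ξ f ≤ κ * t := by
    have : (U : Filter ℝ) ≤ 𝓟 {t | ¬ SQ ξ (f + t • ee g) + SQ ξ (f + (-t) • ee g) -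
      2 * SQ ξ f ≤ κ * t} := hU.trans inf_le_right
    exact this (mem_principal_self _)
  have hpos : ∀ᶠ t in (U : Filter ℝ), 0 < t := hU1 self_mem_nhdsWithin
  have hUt : Tendsto (fun t : ℝ => t) U (𝓝 0) := hU1.trans nhdsWithin_le_nhds
  obtain ⟨M, hM0, hM⟩ := hf.exists_bound
  have hJ : ∀ t : ℝ, InJ (f + t • ee g) := fun t => hf.add ((InJ_ee hg).smul t)
  -- continuity estimate
  have hcomp : ∀ (t : ℝ) (A : Finset X), ⊤ ∈ A →
      |Q ξ (f + t • ee g) A - Q ξ f A| ≤ 22 * M * |t| + 5 * t ^ 2 := by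
    intro t A hA
    have h1 := Q_pert ξ f hg t hA
    have h2 := abs_pert_le hξ hξ2 hM0 hM g t A
    have h3 : Q ξ (f + t • ee g) A - Q ξ f A = PX f g t A + PY ξ f g t A := by linarith
    rw [h3]
    exact (abs_add_le _ _).trans h2
  have hSQ : ∀ t : ℝ, SQ ξ f ≤ SQ ξ (f + t • ee g) + (22 * M * |t| + 5 * t ^ 2) := by
    intro t
    apply SQ_le
    intro A hA
    have h1 := (abs_le.mp (hcomp t A hA)).1
    have h2 := Q_le_SQ hξ2 (hJ t) hA
    linarith
  -- the nearly optimal chains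
  have hch : ∀ s : ℝ, ∀ t : ℝ, ∃ A : Finset X, ⊤ ∈ A ∧
      (0 < t → SQ ξ (f + (s * t) • ee g) - t ^ 2 < Q ξ (f + (s * t) • ee g) A) := by
    intro s t
    by_cases ht : 0 < t
    · obtain ⟨A, hA1, hA2⟩ := exists_near (ξ := ξ) (f := f + (s * t) • ee g)
        (show 0 < t ^ 2 by positivity)
      exact ⟨A, hA1, fun _ => hA2⟩
    · exact ⟨{⊤}, mem_singleton_self _, fun h => absurd h ht⟩
  choose! Ch hCh1 hCh2 using hch
  have hnear : ∀ s : ℝ, |s| = 1 → NearOpt ξ f U (Ch s) := by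
    intro s hs
    refine ⟨hCh1 s, ?_⟩
    have hlow : Tendsto (fun t : ℝ => SQ ξ f - 2 * (22 * M * |s * t| + 5 * (s * t) ^ 2) - t ^ 2) U
        (𝓝 (SQ ξ f - 2 * (22 * M * |s * 0| + 5 * (s * 0) ^ 2) - 0 ^ 2)) := by
      have : Continuous (fun t : ℝ => SQ ξ f - 2 * (22 * M * |s * t| + 5 * (s * t) ^ 2) - t ^ 2) := by
        fun_prop
      exact (this.tendsto 0).comp hUt
    have hz : SQ ξ f - 2 * (22 * M * |s * 0| + 5 * (s * 0) ^ 2) - 0 ^ 2 = SQ ξ f := by simp
    rw [hz] at hlow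
    apply tendsto_of_tendsto_of_tendsto_of_le_of_le' hlow tendsto_const_nhds
    · filter_upwards [hpos] with t ht
      have h1 := hCh2 s t ht
      have h2 := (abs_le.mp (hcomp (s * t) (Ch s t) (hCh1 s t))).2
      have h3 := hSQ (s * t)
      linarith
    · filter_upwards with t
      exact Q_le_SQ hξ2 hf (hCh1 s t)
  have hA := hnear 1 (by norm_num)
  have hA' := hnear (-1) (by norm_num)
  set A : ℝ → Finset X := Ch 1 with hAdef
  set A' : ℝ → Finset X := Ch (-1) with hAdef'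
  -- upper bound for the second difference
  have hup : ∀ᶠ t in (U : Filter ℝ), SQ ξ (f + t • ee g) + SQ ξ (f + (-t) • ee g) - 2 * SQ ξ f ≤
      (PX f g t (A t) + PX f g (-t) (A' t)) + (PY ξ f g t (A t) + PY ξ f g (-t) (A' t)) +
        2 * t ^ 2 := by
    filter_upwards [hpos] with t ht
    have h1 := hCh2 1 t ht
    have h2 := hCh2 (-1) t ht
    rw [one_mul] at h1
    rw [neg_one_mul] at h2
    have h3 := Q_pert ξ f hg t (hCh1 1 t)
    have h4 := Q_pert ξ f hg (-t) (hCh1 (-1) t)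
    have h5 := Q_le_SQ hξ2 hf (hCh1 1 t)
    have h6 := Q_le_SQ hξ2 hf (hCh1 (-1) t)
    rw [← hAdef] at h1 h3 h5
    rw [← hAdef'] at h2 h4 h6
    linarith
  have hκ4 : 0 < κ / 4 := by positivity
  -- crossing part
  have hX : ∀ᶠ t in (U : Filter ℝ), PX f g t (A t) + PX f g (-t) (A' t) ≤ κ / 4 * t := by
    have hb : ∀ᶠ t in (U : Filter ℝ), nx (A t) g ∈ A t :=
      Filter.Eventually.of_forall (fun t => (nx_spec (hA.top_mem t) hg).1)
    have hb' : ∀ᶠ t in (U : Filter ℝ), nx (A' t) g ∈ A' t :=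
      Filter.Eventually.of_forall (fun t => (nx_spec (hA'.top_mem t) hg).1)
    rcases lemPU hξ hξ2 hf hG hA hA' hb hb'
      (fun t a0 b0 hab h1 h2 h3 h4 => cross_unique (hA.top_mem t) hg hab h1 h2 h3 h4)
      (fun t a0 b0 hab h1 h2 h3 h4 => cross_unique (hA'.top_mem t) hg hab h1 h2 h3 h4) with
      ⟨h1, h2⟩ | ⟨a0, b0, hab, hfab, hev⟩
    · have hlim : Tendsto (fun t => 3 * (2 * |f (nx (A t) g) - f (pv (A t) (nx (A t) g))| + t) +
          3 * (2 * |f (nx (A' t) g) - f (pv (A' t) (nx (A' t) g))| + t)) U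
          (𝓝 (3 * (2 * |0| + 0) + 3 * (2 * |0| + 0))) :=
        ((((h1.abs).const_mul 2).add hUt).const_mul 3).add
          ((((h2.abs).const_mul 2).add hUt).const_mul 3)
      have hz : (3 * (2 * |(0:ℝ)| + 0) + 3 * (2 * |0| + 0)) = 0 := by simp
      rw [hz] at hlim
      filter_upwards [hlim.eventually (gt_mem_nhds hκ4), hpos] with t h3 ht
      have e1 : PX f g t (A t) ≤ 3 * (2 * |f (nx (A t) g) - f (pv (A t) (nx (A t) g))| + t) * t := by
        unfold PX
        split_ifs with h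
        · have := (abs_le.mp (abs_XX_le (one_le_wt (nx (A t) g)) (wt_le_two _)
            (f (nx (A t) g) - f (pv (A t) (nx (A t) g))) (dd f (nx (A t) g)) t)).2
          rw [abs_of_pos ht] at this
          linarith
        · positivity
      have e2 : PX f g (-t) (A' t) ≤
          3 * (2 * |f (nx (A' t) g) - f (pv (A' t) (nx (A' t) g))| + t) * t := by
        unfold PX
        split_ifs with h
        · have := (abs_le.mp (abs_XX_le (one_le_wt (nx (A' t) g)) (wt_le_two _)
            (f (nx (A' t) g) - f (pv (A' t) (nx (A' t) g))) (dd f (nx (A' t) g)) (-t))).2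
          rw [abs_neg, abs_of_pos ht] at this
          linarith
        · positivity
      nlinarith
    · have hne : f b0 - f a0 ≠ 0 := sub_ne_zero.mpr (Ne.symm hfab)
      have hsec := hU1 (XX_second (w := wt b0) (d := dd f b0) hne hκ4)
      filter_upwards [hev, hsec, hpos] with t h3 h4 ht
      unfold PX
      rw [h3.1, h3.2.1, h3.2.2.1, h3.2.2.2]
      split_ifs with h
      · exact h4
      · rw [add_zero]; positivity
  -- own part
  have hY : ∀ᶠ t in (U : Filter ℝ), PY ξ f g t (A t) + PY ξ f g (-t) (A' t) ≤ κ / 4 * t := by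
    by_cases hd : dd f g = 0
    · have hlim : Tendsto (fun t : ℝ => 6 * t) U (𝓝 (6 * 0)) := hUt.const_mul 6
      rw [mul_zero] at hlim
      have hbd : ∀ (t : ℝ) (B : Finset X), PY ξ f g t B ≤ 3 * t ^ 2 := by
        intro t B
        unfold PY
        split_ifs with h
        · rw [hd]
          unfold YY
          have h1 := F_le_right (f g - f (pv B g)) (0 - t)
          have h2 := hξ2 g
          rw [F_zero_right]
          nlinarith [sq_nonneg t]
        · positivity
      filter_upwards [hlim.eventually (gt_mem_nhds hκ4), hpos] with t h3 ht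
      have e1 := hbd t (A t)
      have e2 := hbd (-t) (A' t)
      nlinarith
    · obtain ⟨δ, hδ, h1 | h1⟩ := hG g hd
      · have hgA : ∀ᶠ t in (U : Filter ℝ), g ∈ A t := by
          filter_upwards [hA.ev hδ] with t ht
          exact h1 _ (hA.top_mem t) ht
        have hgA' : ∀ᶠ t in (U : Filter ℝ), g ∈ A' t := by
          filter_upwards [hA'.ev hδ] with t ht
          exact h1 _ (hA'.top_mem t) ht
        rcases lemPU hξ hξ2 hf hG hA hA' (b := fun _ => g) (b' := fun _ => g) hgA hgA'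
          (fun t a0 b0 _ h _ _ _ => h) (fun t a0 b0 _ h _ _ _ => h) with
          ⟨h2, h3⟩ | ⟨a0, b0, hab, hfab, hev⟩
        · have hlim : Tendsto (fun t => (|f g - f (pv (A t) g)| + |f g - f (pv (A' t) g)|) +
              4 * t) U (𝓝 ((|0| + |0|) + 4 * 0)) :=
            ((h2.abs).add (h3.abs)).add (hUt.const_mul 4)
          have hz : ((|(0:ℝ)| + |0|) + 4 * 0) = 0 := by simp
          rw [hz] at hlim
          filter_upwards [hlim.eventually (gt_mem_nhds hκ4), hpos, hgA, hgA'] with t h4 ht h5 h6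
          unfold PY
          rw [if_pos h5, if_pos h6]
          have h7 := YY_second' (x := ξ g) (Δ := f g - f (pv (A t) g))
            (Δ' := f g - f (pv (A' t) g)) (d := dd f g) (t := t)
          rw [abs_of_pos ht] at h7
          have h8 := hξ2 g
          nlinarith [sq_nonneg t]
        · obtain ⟨t0, ht0⟩ := hev.exists
          have hb0 : g = b0 := ht0.1
          subst hb0
          have hne : f g - f a0 ≠ 0 := sub_ne_zero.mpr (Ne.symm hfab)
          have hsec := hU1 (YY_second (x := ξ g) (d := dd f g) hne hκ4)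
          filter_upwards [hev, hsec, hgA, hgA'] with t h3 h4 h5 h6
          unfold PY
          rw [if_pos h5, if_pos h6, h3.2.1, h3.2.2.2]
          exact h4
      · filter_upwards [hA.ev hδ, hA'.ev hδ, hpos] with t h2 h3 ht
        unfold PY
        rw [if_neg (h1 _ (hA.top_mem t) h2), if_neg (h1 _ (hA'.top_mem t) h3), add_zero]
        positivity
  have hT : ∀ᶠ t in (U : Filter ℝ), 2 * t ^ 2 ≤ κ / 4 * t := by
    have hlim : Tendsto (fun t : ℝ => 2 * t) U (𝓝 (2 * 0)) := hUt.const_mul 2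
    rw [mul_zero] at hlim
    filter_upwards [hlim.eventually (gt_mem_nhds hκ4), hpos] with t h3 ht
    nlinarith
  obtain ⟨t, h1, h2, h3, h4, h5, h6⟩ :=
    (hU2.and (hup.and (hX.and (hY.and (hT.and hpos))))).exists
  apply h1
  nlinarith

end Pool.Agent.LongJames
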