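import Mathlib
import Pool.Agent.Lib_helper81.LongJames.Second

set_option autoImplicit false
set_option linter.unusedSectionVars false

namespace Pool.Agent.LongJames

open Finset Filter Topology MeasureTheory

variable {X : Type*} [LinearOrder X] [OrderTop X] [SuccOrder X] [WellFoundedLT X]
  [TopologicalSpace X] [OrderTopology X] [CompactSpace X]

/-- the random rewards -/
def xi (u : X → unitInterval) (b : X) : ℝ := 1 + (u b : ℝ)

lemma one_le_xi (u : X → unitInterval) (b : X) : 1 ≤ xi u b := by
  unfold xi; linarith [(u b).2.1]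

lemma xi_le_two (u : X → unitInterval) (b : X) : xi u b ≤ 2 := by
  unfold xi; linarith [(u b).2.2]

/-- the probability measure -/
noncomputable def PP (X : Type*) : Measure (X → unitInterval) :=
  Measure.infinitePi (fun _ : X => (volume : Measure unitInterval))

instance instProbPP (X : Type*) : IsProbabilityMeasure (PP X) := by
  unfold PP; infer_instance

open Classical in
/-- resampling one coordinate preserves the measure -/
lemma map_update (e : X) :
    ((PP X).prod (volume : Measure unitInterval)).map
      (fun z : (X → unitInterval) × unitInterval => Function.update z.1 e z.2) = PP X := by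
  have hmeas : Measurable
      (fun z : (X → unitInterval) × unitInterval => Function.update z.1 e z.2) := by
    rw [measurable_pi_iff]
    intro i
    by_cases h : i = e
    · subst h
      simp only [Function.update_self]
      exact measurable_snd
    · simp only [Function.update_of_ne h]
      exact (measurable_pi_apply i).comp measurable_fst
  apply Measure.eq_infinitePi
  intro s t ht
  rw [Measure.map_apply hmeas (.pi s.countable_toSet (fun i _ => ht i))]
  by_cases he : e ∈ s
  · have : (fun z : (X → unitInterval) × unitInterval => Function.update z.1 e z.2) ⁻¹'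
        (Set.pi s t) = (Set.pi (s.erase e : Finset X) t) ×ˢ (t e) := by
      ext ⟨u, a⟩
      simp only [Set.mem_preimage, Set.mem_pi, Set.mem_prod, Finset.mem_coe, mem_erase]
      constructor
      · intro h
        refine ⟨fun i hi => ?_, ?_⟩
        · have := h i hi.2
          rwa [Function.update_of_ne hi.1] at this
        · have := h e he
          rwa [Function.update_self] at this
      · rintro ⟨h1, h2⟩ i hi
        by_cases hie : i = e
        · subst hie; rw [Function.update_self]; exact h2
        · rw [Function.update_of_ne hie]; exact h1 i ⟨hie, hi⟩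
    rw [this, Measure.prod_prod]
    unfold PP
    rw [Measure.infinitePi_pi _ (fun i _ => ht i), mul_comm]
    exact Finset.mul_prod_erase s (fun i => (volume : Measure unitInterval) (t i)) he
  · have : (fun z : (X → unitInterval) × unitInterval => Function.update z.1 e z.2) ⁻¹'
        (Set.pi s t) = (Set.pi s t) ×ˢ Set.univ := by
      ext ⟨u, a⟩
      simp only [Set.mem_preimage, Set.mem_pi, Set.mem_prod, Finset.mem_coe, Set.mem_univ,
        and_true]
      constructor
      · intro h i hi
        have := h i hi
        rwa [Function.update_of_ne (fun h' : i = e => he (h' ▸ hi))] at this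
      · intro h i hi
        rw [Function.update_of_ne (fun h' : i = e => he (h' ▸ hi))]; exact h i hi
    rw [this, Measure.prod_prod, measure_univ, mul_one]
    unfold PP
    rw [Measure.infinitePi_pi _ (fun i _ => ht i)]

lemma countable_jumps {f : X → ℝ} (hf : InJ f) : {x | dd f x ≠ 0}.Countable := by
  have hs : Summable (fun x => (dd f x) ^ 2) := by
    apply summable_of_sum_le (c := sSup (VS f)) (fun x => sq_nonneg _)
    intro u
    exact (sum_dd_le f u).trans (VA_le hf.bdd _)
  have := hs.countable_support
  convert this using 1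
  ext x
  simp [Function.mem_support]

open Classical in
/-- decomposition of `Q` -/
lemma Q_decomp (u : X → unitInterval) (f : X → ℝ) (A : Finset X) :
    Q (xi u) f A = cost (kk f) A +
      ∑ b ∈ A.filter (fun b => dd f b ≠ 0), xi u b * (dd f b) ^ 2 := by
  unfold Q cost kQ
  rw [Finset.sum_add_distrib]
  congr 1
  rw [Finset.sum_filter_of_ne]
  intro b _ hb h0
  rw [h0] at hb
  simp at hb

/-- supremum over a family of chains -/
noncomputable def TT (𝒜 : Set (Finset X)) (f : X → ℝ) (u : X → unitInterval) : ℝ :=
  sSup ((fun A => Q (xi u) f A) '' 𝒜)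

lemma TT_bdd {f : X → ℝ} (hf : InJ f) (𝒜 : Set (Finset X)) (u : X → unitInterval) :
    BddAbove ((fun A => Q (xi u) f A) '' 𝒜) := by
  refine ⟨5 * sSup (VS f), ?_⟩
  rintro _ ⟨A, _, rfl⟩
  exact Q_le (xi_le_two u) hf.bdd A

lemma le_TT {f : X → ℝ} (hf : InJ f) {𝒜 : Set (Finset X)} (u : X → unitInterval) {A : Finset X}
    (hA : A ∈ 𝒜) : Q (xi u) f A ≤ TT 𝒜 f u :=
  le_csSup (TT_bdd hf 𝒜 u) ⟨A, hA, rfl⟩

lemma TT_le {f : X → ℝ} {𝒜 : Set (Finset X)} (h𝒜 : 𝒜.Nonempty) (u : X → unitInterval) {c : ℝ}
    (h : ∀ A ∈ 𝒜, Q (xi u) f A ≤ c) : TT 𝒜 f u ≤ c := by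
  apply csSup_le (h𝒜.image _)
  rintro _ ⟨A, hA, rfl⟩
  exact h A hA

lemma measurable_TT {f : X → ℝ} (hf : InJ f) {𝒜 : Set (Finset X)} (h𝒜 : 𝒜.Nonempty) :
    Measurable (TT 𝒜 f) := by
  classical
  apply measurable_of_Ioi
  intro a
  have hcount := countable_jumps hf
  set E : Set (Finset X) := {s | (s : Set X) ⊆ {x | dd f x ≠ 0}} with hE
  have hEc : E.Countable := by
    have : Countable {x // dd f x ≠ 0} := hcount.to_subtype
    apply (Set.countable_range (fun s : Finset {x // dd f x ≠ 0} =>
      s.map ⟨Subtype.val, Subtype.val_injective⟩)).mono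
    intro s hs
    refine ⟨s.subtype (fun x => dd f x ≠ 0), ?_⟩
    ext x
    simp only [Finset.mem_map, Finset.mem_subtype, Function.Embedding.coeFn_mk, Subtype.exists,
      exists_and_left, exists_prop, exists_eq_right_right]
    constructor
    · exact fun h => h.1
    · exact fun h => ⟨h, hs (Finset.mem_coe.mpr h)⟩
  have hset : TT 𝒜 f ⁻¹' Set.Ioi a = ⋃ s ∈ E,
      (fun u : X → unitInterval => ∑ b ∈ s, xi u b * (dd f b) ^ 2) ⁻¹'
        (⋃ A ∈ {A ∈ 𝒜 | A.filter (fun b => dd f b ≠ 0) = s}, Set.Ioi (a - cost (kk f) A)) := by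
    ext u
    simp only [Set.mem_preimage, Set.mem_Ioi, Set.mem_iUnion, Set.mem_ofPred_eq, exists_prop]
    constructor
    · intro h
      obtain ⟨_, ⟨A, hA, rfl⟩, h2⟩ := exists_lt_of_lt_csSup (h𝒜.image _) h
      refine ⟨A.filter (fun b => dd f b ≠ 0), ?_, A, ⟨hA, rfl⟩, ?_⟩
      · intro x hx
        exact (mem_filter.mp (Finset.mem_coe.mp hx)).2
      · simp only [Q_decomp] at h2
        linarith
    · rintro ⟨s, _, A, ⟨hA, rfl⟩, h2⟩
      have h3 := le_TT hf u hA
      rw [Q_decomp] at h3
      linarith
  rw [hset]
  apply MeasurableSet.biUnion hEc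
  intro s _
  have hm : Measurable (fun u : X → unitInterval => ∑ b ∈ s, xi u b * (dd f b) ^ 2) := by
    unfold xi
    fun_prop
  exact hm (isOpen_biUnion (fun A _ => isOpen_Ioi)).measurableSet

end Pool.Agent.LongJames
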