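import Mathlib
import Pool.Agent.Lib_helper81.LongJames.Meas

set_option autoImplicit false
set_option linter.unusedSectionVars false

namespace Pool.Agent.LongJames

open Finset Filter Topology MeasureTheory

variable {X : Type*} [LinearOrder X] [OrderTop X] [SuccOrder X] [WellFoundedLT X]
  [TopologicalSpace X] [OrderTopology X] [CompactSpace X]

lemma SQ_eq_TT (f : X → ℝ) (u : X → unitInterval) :
    SQ (xi u) f = TT {A | ⊤ ∈ A} f u := by
  unfold SQ TT iSup
  congr 1
  ext x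
  constructor
  · rintro ⟨A, rfl⟩
    exact ⟨A.1, A.2, rfl⟩
  · rintro ⟨A, hA, rfl⟩
    exact ⟨⟨A, hA⟩, rfl⟩

lemma measurable_SQ {f : X → ℝ} (hf : InJ f) : Measurable (fun u => SQ (xi u) f) := by
  simp only [SQ_eq_TT]
  exact measurable_TT hf ⟨{⊤}, mem_singleton_self _⟩

/-- dependence of `Q` on one coordinate, when the point is not in the chain -/
lemma Q_update_of_notMem [DecidableEq X] (f : X → ℝ) {e : X} {A : Finset X} (he : e ∉ A)
    (u : X → unitInterval) (a : unitInterval) :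
    Q (xi (Function.update u e a)) f A = Q (xi u) f A := by
  unfold Q cost kQ xi
  apply Finset.sum_congr rfl
  intro b hb
  rw [Function.update_of_ne (fun h : b = e => he (h ▸ hb))]

lemma Q_update_of_mem [DecidableEq X] (f : X → ℝ) {e : X} {A : Finset X} (he : e ∈ A)
    (u : X → unitInterval) (a : unitInterval) :
    Q (xi (Function.update u e a)) f A = Q (xi u) f A + ((a : ℝ) - (u e : ℝ)) * (dd f e) ^ 2 := by
  unfold Q cost kQ xi
  rw [← Finset.add_sum_erase _ _ he, ← Finset.add_sum_erase A _ he]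
  have : ∑ b ∈ A.erase e, (kk f (pv A b) b + (1 + (Function.update u e a b : ℝ)) * (dd f b) ^ 2) =
      ∑ b ∈ A.erase e, (kk f (pv A b) b + (1 + (u b : ℝ)) * (dd f b) ^ 2) := by
    apply Finset.sum_congr rfl
    intro b hb
    rw [Function.update_of_ne (mem_erase.mp hb).1]
  rw [this, Function.update_self]
  ring

/-- ties at a jump point have probability zero -/
lemma ae_no_tie {f : X → ℝ} (hf : InJ f) {e : X} (he : dd f e ≠ 0) :
    ∀ᵐ u ∂(PP X), TT {A | ⊤ ∈ A ∧ e ∈ A} f u ≠ TT {A | ⊤ ∈ A ∧ e ∉ A} f u := by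
  classical
  have het : e ≠ ⊤ := by rintro rfl; exact he (dd_top f)
  have hne1 : {A : Finset X | ⊤ ∈ A ∧ e ∈ A}.Nonempty :=
    ⟨{⊤, e}, by simp⟩
  have hne2 : {A : Finset X | ⊤ ∈ A ∧ e ∉ A}.Nonempty :=
    ⟨{⊤}, by simp [het]⟩
  have hm1 := measurable_TT hf hne1
  have hm2 := measurable_TT hf hne2
  set N : Set (X → unitInterval) :=
    {u | TT {A | ⊤ ∈ A ∧ e ∈ A} f u = TT {A | ⊤ ∈ A ∧ e ∉ A} f u} with hN
  have hNm : MeasurableSet N := measurableSet_eq_fun hm1 hm2
  have hupd : Measurable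
      (fun z : (X → unitInterval) × unitInterval => Function.update z.1 e z.2) := by
    rw [measurable_pi_iff]
    intro i
    by_cases h : i = e
    · subst h
      simp only [Function.update_self]
      exact measurable_snd
    · simp only [Function.update_of_ne h]
      exact (measurable_pi_apply i).comp measurable_fst
  have hzero : PP X N = 0 := by
    rw [← map_update e, Measure.map_apply hupd hNm]
    rw [Measure.measure_prod_null (hupd hNm)]
    refine Filter.Eventually.of_forall (fun u => ?_)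
    change (volume : Measure unitInterval) {a | Function.update u e a ∈ N} = 0
    apply Set.Subsingleton.measure_zero
    intro a ha b hb
    by_contra hab
    wlog hlt : a < b generalizing a b
    · exact this hb ha (Ne.symm hab) (lt_of_le_of_ne (not_lt.mp hlt) (Ne.symm hab))
    have ha' : TT {A | ⊤ ∈ A ∧ e ∈ A} f (Function.update u e a) =
      TT {A | ⊤ ∈ A ∧ e ∉ A} f (Function.update u e a) := ha
    have hb' : TT {A | ⊤ ∈ A ∧ e ∈ A} f (Function.update u e b) =
      TT {A | ⊤ ∈ A ∧ e ∉ A} f (Function.update u e b) := hb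
    have h1 : TT {A | ⊤ ∈ A ∧ e ∉ A} f (Function.update u e a) =
        TT {A | ⊤ ∈ A ∧ e ∉ A} f (Function.update u e b) := by
      unfold TT
      congr 1
      apply Set.image_congr
      intro A hA
      rw [Q_update_of_notMem f hA.2, Q_update_of_notMem f hA.2]
    have h2 : TT {A | ⊤ ∈ A ∧ e ∈ A} f (Function.update u e a) ≤
        TT {A | ⊤ ∈ A ∧ e ∈ A} f (Function.update u e b) - ((b : ℝ) - (a : ℝ)) * (dd f e) ^ 2 := by
      apply TT_le hne1
      intro A hA
      have h3 := le_TT hf (Function.update u e b) hA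
      rw [Q_update_of_mem f hA.2] at h3 ⊢
      linarith
    have h3 : 0 < ((b : ℝ) - (a : ℝ)) * (dd f e) ^ 2 := by
      have : (a : ℝ) < (b : ℝ) := hlt
      have h4 : 0 < (b : ℝ) - (a : ℝ) := by linarith
      positivity
    linarith
  exact measure_eq_zero_iff_ae_notMem.mp hzero

lemma NoTie_of_ne {f : X → ℝ} (hf : InJ f) {e : X} (u : X → unitInterval)
    (h : TT {A | ⊤ ∈ A ∧ e ∈ A} f u ≠ TT {A | ⊤ ∈ A ∧ e ∉ A} f u)
    (hne1 : {A : Finset X | ⊤ ∈ A ∧ e ∈ A}.Nonempty)
    (hne2 : {A : Finset X | ⊤ ∈ A ∧ e ∉ A}.Nonempty) : NoTie (xi u) f e := by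
  have hS1 : TT {A | ⊤ ∈ A ∧ e ∈ A} f u ≤ SQ (xi u) f := by
    apply TT_le hne1
    intro A hA
    exact Q_le_SQ (xi_le_two u) hf hA.1
  have hS2 : TT {A | ⊤ ∈ A ∧ e ∉ A} f u ≤ SQ (xi u) f := by
    apply TT_le hne2
    intro A hA
    exact Q_le_SQ (xi_le_two u) hf hA.1
  rcases lt_or_gt_of_ne h with h1 | h1
  · refine ⟨TT {A | ⊤ ∈ A ∧ e ∉ A} f u - TT {A | ⊤ ∈ A ∧ e ∈ A} f u, by linarith, Or.inr ?_⟩
    intro A hA hQ heA
    have := le_TT hf u (show A ∈ {A : Finset X | ⊤ ∈ A ∧ e ∈ A} from ⟨hA, heA⟩)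
    linarith
  · refine ⟨TT {A | ⊤ ∈ A ∧ e ∈ A} f u - TT {A | ⊤ ∈ A ∧ e ∉ A} f u, by linarith, Or.inl ?_⟩
    intro A hA hQ
    by_contra heA
    have := le_TT hf u (show A ∈ {A : Finset X | ⊤ ∈ A ∧ e ∉ A} from ⟨hA, heA⟩)
    linarith

/-- almost surely there are no ties -/
theorem ae_good {f : X → ℝ} (hf : InJ f) : ∀ᵐ u ∂(PP X), Good (xi u) f := by
  classical
  have hc := countable_jumps hf
  have h : ∀ᵐ u ∂(PP X), ∀ e ∈ {x | dd f x ≠ 0}, NoTie (xi u) f e := by
    rw [ae_ball_iff hc]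
    intro e he
    have het : e ≠ ⊤ := by rintro rfl; exact he (dd_top f)
    filter_upwards [ae_no_tie hf he] with u hu
    exact NoTie_of_ne hf u hu ⟨{⊤, e}, by simp⟩ ⟨{⊤}, by simp [het]⟩
  filter_upwards [h] with u hu e he
  exact hu e he

end Pool.Agent.LongJames
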