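import Mathlib

set_option autoImplicit false

namespace Pool.Agent.LongJames

open Filter Topology

/-- An equivalent Gateaux smooth norm yields a Gateaux smooth continuous bump function. -/
theorem exists_bump {E : Type*} [NormedAddCommGroup E] [NormedSpace ℝ E] [Nontrivial E]
    (p : E → ℝ) (hadd : ∀ x y, p (x + y) ≤ p x + p y) (hsmul : ∀ (a : ℝ) x, p (a • x) = |a| * p x)
    (c C : ℝ) (hc : 0 < c) (hlow : ∀ x, c * ‖x‖ ≤ p x) (hup : ∀ x, p x ≤ C * ‖x‖)
    (hdiff : ∀ x, x ≠ 0 → ∀ h, ∃ d : ℝ,
      Tendsto (fun t : ℝ => (p (x + t • h) - p x) / t) (𝓝[≠] 0) (𝓝 d)) :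
    ∃ b : E → ℝ, Continuous b ∧ (∃ x, b x ≠ 0) ∧ Bornology.IsBounded (Function.support b) ∧
      ∀ x, ∃ L : E →L[ℝ] ℝ, ∀ h, HasLineDerivAt ℝ b (L h) x h := by
  have hp0 : p 0 = 0 := by
    have := hsmul 0 0
    simpa using this
  have hneg : ∀ x, p (-x) = p x := by
    intro x
    have := hsmul (-1) x
    simpa using this
  have hnn : ∀ x, 0 ≤ p x := fun x => (mul_nonneg hc.le (norm_nonneg x)).trans (hlow x)
  have hC : 0 ≤ C := by
    obtain ⟨x, hx⟩ := exists_ne (0 : E)
    have h1 := (hnn x).trans (hup x)
    have h2 : 0 < ‖x‖ := norm_pos_iff.mpr hx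
    by_contra hcon
    push Not at hcon
    nlinarith
  have hLip : ∀ x y, |p x - p y| ≤ p (x - y) := by
    intro x y
    have h1 := hadd (x - y) y
    have h2 := hadd (y - x) x
    rw [sub_add_cancel] at h1 h2
    have h3 : p (y - x) = p (x - y) := by rw [← neg_sub, hneg]
    rw [abs_le]; constructor <;> linarith
  have hcont : Continuous p := by
    apply (LipschitzWith.of_dist_le_mul (K := C.toNNReal) _).continuous
    intro x y
    rw [Real.dist_eq, dist_eq_norm, Real.coe_toNNReal C hC]
    exact (hLip x y).trans (hup _)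
  -- derivatives
  have hderiv : ∀ x, x ≠ 0 → ∀ h, ∃ d : ℝ, HasDerivAt (fun t : ℝ => p (x + t • h)) d 0 := by
    intro x hx h
    obtain ⟨d, hd⟩ := hdiff x hx h
    refine ⟨d, ?_⟩
    rw [hasDerivAt_iff_tendsto_slope_zero]
    refine hd.congr (fun t => ?_)
    rw [zero_add, zero_smul, add_zero, smul_eq_mul, div_eq_inv_mul]
  have hlin : ∀ x, x ≠ 0 → ∃ L : E →L[ℝ] ℝ, ∀ h, HasDerivAt (fun t : ℝ => p (x + t • h)) (L h) 0 := by
    intro x hx
    choose d hd using hderiv x hx
    -- one-sided slopes
    have hslope : ∀ h, Tendsto (fun t : ℝ => (p (x + t • h) - p x) / t) (𝓝[>] 0) (𝓝 (d h)) := by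
      intro h
      have h1 := (hasDerivAt_iff_tendsto_slope_zero.mp (hd h)).mono_left
        (nhdsWithin_mono (0 : ℝ) (fun t (ht : t ∈ Set.Ioi (0 : ℝ)) => ne_of_gt ht))
      refine h1.congr (fun t => ?_)
      rw [zero_add, zero_smul, add_zero, smul_eq_mul, div_eq_inv_mul]
    have hd_smul : ∀ (a : ℝ) h, d (a • h) = a * d h := by
      intro a h
      have h1 : HasDerivAt (fun t : ℝ => p (x + (a * t) • h)) (d h * a) 0 := by
        have h2 : HasDerivAt (fun t : ℝ => a * t) (a * 1) 0 := (hasDerivAt_id (0 : ℝ)).const_mul a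
        have h3 : HasDerivAt (fun t : ℝ => p (x + t • h)) (d h) (a * 0) := by
          rw [mul_zero]; exact hd h
        have := h3.comp (0 : ℝ) h2
        rw [mul_one] at this
        exact this
      have h2 : (fun t : ℝ => p (x + t • (a • h))) = fun t : ℝ => p (x + (a * t) • h) := by
        ext t; rw [smul_smul, mul_comm]
      have h3 := hd (a • h)
      rw [h2] at h3
      rw [h3.unique h1, mul_comm]
    have hd_le : ∀ h k, d (h + k) ≤ d h + d k := by
      intro h k
      have h1 := hslope (h + k)
      have e2 : Tendsto (fun t : ℝ => 2 * t) (𝓝[>] 0) (𝓝[>] 0) := by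
        apply tendsto_nhdsWithin_of_tendsto_nhds_of_eventually_within
        · have : Tendsto (fun t : ℝ => 2 * t) (𝓝 0) (𝓝 (2 * 0)) :=
            (continuous_const_mul 2).tendsto 0
          rw [mul_zero] at this
          exact this.mono_left nhdsWithin_le_nhds
        · filter_upwards [self_mem_nhdsWithin] with t ht
          have ht' : 0 < t := ht
          exact mul_pos two_pos ht'
      have h2 := ((hslope h).comp e2).add ((hslope k).comp e2)
      apply le_of_tendsto_of_tendsto h1 h2
      filter_upwards [self_mem_nhdsWithin] with t ht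
      have ht' : 0 < t := ht
      have h3 := hadd ((1 / 2 : ℝ) • (x + (2 * t) • h)) ((1 / 2 : ℝ) • (x + (2 * t) • k))
      have h4 : (1 / 2 : ℝ) • (x + (2 * t) • h) + (1 / 2 : ℝ) • (x + (2 * t) • k) =
          x + t • (h + k) := by
        have : x = (1 / 2 : ℝ) • x + (1 / 2 : ℝ) • x := by rw [← add_smul]; norm_num
        rw [smul_add, smul_add, smul_smul, smul_smul]
        have e : (1 / 2 : ℝ) * (2 * t) = t := by ring
        rw [e, smul_add]
        nth_rewrite 3 [this]
        abel
      rw [h4, hsmul, hsmul, abs_of_pos (by norm_num : (0 : ℝ) < 1 / 2)] at h3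
      simp only [Function.comp_apply]
      rw [← add_div, div_le_div_iff₀ ht' (by positivity)]
      nlinarith
    have hd_add : ∀ h k, d (h + k) = d h + d k := by
      intro h k
      apply le_antisymm (hd_le h k)
      have h1 := hd_le (h + k) (-k)
      have h2 : d (-k) = -d k := by
        have := hd_smul (-1) k
        rw [neg_one_smul, neg_one_mul] at this
        exact this
      rw [add_neg_cancel_right, h2] at h1
      linarith
    have hbd : ∀ h, |d h| ≤ C * ‖h‖ := by
      have hle : ∀ h, d h ≤ C * ‖h‖ := by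
        intro h
        apply le_of_tendsto (hslope h)
        filter_upwards [self_mem_nhdsWithin] with t ht
        have ht' : 0 < t := ht
        have h1 := hadd x (t • h)
        rw [hsmul, abs_of_pos ht'] at h1
        rw [div_le_iff₀ ht']
        have h2 := hup h
        nlinarith
      intro h
      rw [abs_le]
      have h1 := hle (-h)
      have h2 : d (-h) = -d h := by
        have := hd_smul (-1) h
        rw [neg_one_smul, neg_one_mul] at this
        exact this
      rw [h2, norm_neg] at h1
      exact ⟨by linarith, hle h⟩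
    let L0 : E →ₗ[ℝ] ℝ :=
      { toFun := d
        map_add' := hd_add
        map_smul' := fun a h => by rw [hd_smul]; rfl }
    refine ⟨L0.mkContinuous C (fun h => ?_), fun h => ?_⟩
    · rw [Real.norm_eq_abs]; exact hbd h
    · exact hd h
  -- the bump
  refine ⟨fun x => Real.smoothTransition (2 - p x), ?_, ⟨0, ?_⟩, ?_, ?_⟩
  · exact Real.smoothTransition.continuous.comp (continuous_const.sub hcont)
  · change Real.smoothTransition (2 - p 0) ≠ 0
    rw [hp0, Real.smoothTransition.one_of_one_le (by norm_num)]
    exact one_ne_zero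
  · rw [isBounded_iff_forall_norm_le]
    refine ⟨2 / c, fun x hx => ?_⟩
    rw [Function.mem_support] at hx
    by_contra hcon
    push Not at hcon
    apply hx
    apply Real.smoothTransition.zero_of_nonpos
    rw [div_lt_iff₀ hc] at hcon
    have := hlow x
    nlinarith
  · intro x
    by_cases hx : x = 0
    · subst hx
      refine ⟨0, fun h => ?_⟩
      have hev : (fun _ : ℝ => (1 : ℝ)) =ᶠ[𝓝 0]
          (fun t : ℝ => Real.smoothTransition (2 - p (0 + t • h))) := by
        have h1 : Tendsto (fun t : ℝ => p (0 + t • h)) (𝓝 0) (𝓝 (p (0 + (0 : ℝ) • h))) := by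
          have : Continuous (fun t : ℝ => p (0 + t • h)) := hcont.comp (by fun_prop)
          exact this.tendsto 0
        rw [zero_smul, add_zero, hp0] at h1
        filter_upwards [h1.eventually (gt_mem_nhds one_pos)] with t ht
        rw [Real.smoothTransition.one_of_one_le (by linarith)]
      have h2 : HasDerivAt (fun _ : ℝ => (1 : ℝ)) 0 0 := hasDerivAt_const 0 1
      exact h2.congr_of_eventuallyEq hev.symm
    · obtain ⟨L, hL⟩ := hlin x hx
      have hst : DifferentiableAt ℝ Real.smoothTransition (2 - p x) :=
        (Real.smoothTransition.contDiff (n := 1)).differentiable one_ne_zero _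
      refine ⟨(-(deriv Real.smoothTransition (2 - p x))) • L, fun h => ?_⟩
      have h1 : HasDerivAt (fun t : ℝ => 2 - p (x + t • h)) (-(L h)) 0 := (hL h).const_sub 2
      have h2 : HasDerivAt Real.smoothTransition (deriv Real.smoothTransition (2 - p x))
          (2 - p (x + (0 : ℝ) • h)) := by
        rw [zero_smul, add_zero]; exact hst.hasDerivAt
      have h3 := h2.comp (0 : ℝ) h1
      unfold HasLineDerivAt
      have e : ((-(deriv Real.smoothTransition (2 - p x))) • L) h =
          deriv Real.smoothTransition (2 - p x) * -(L h) := by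
        simp
      rw [e]
      exact h3

end Pool.Agent.LongJames
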