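import Mathlib
import Pool.Agent.Lib_helper81.LongJames.Ae

set_option autoImplicit false
set_option linter.unusedSectionVars false

namespace Pool.Agent.LongJames

open Finset Filter Topology MeasureTheory

variable {X : Type*} [LinearOrder X] [OrderTop X] [SuccOrder X] [WellFoundedLT X]
  [TopologicalSpace X] [OrderTopology X] [CompactSpace X]

/-- the random norm -/
noncomputable def pu (u : X → unitInterval) (f : X → ℝ) : ℝ := √(SQ (xi u) f)

lemma pu_nonneg (u : X → unitInterval) (f : X → ℝ) : 0 ≤ pu u f := Real.sqrt_nonneg _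

lemma pu_sq (u : X → unitInterval) (f : X → ℝ) : pu u f ^ 2 = SQ (xi u) f :=
  Real.sq_sqrt (SQ_nonneg (one_le_xi u))

lemma pu_add (u : X → unitInterval) {f g : X → ℝ} (hf : InJ f) (hg : InJ g) :
    pu u (f + g) ≤ pu u f + pu u g := by
  unfold pu
  rw [Real.sqrt_le_left (by positivity)]
  apply SQ_le
  intro A hA
  have h1 := (sqSemi_Q (one_le_xi u) A).add_sq f g
  refine h1.trans ?_
  apply pow_le_pow_left₀ (by positivity)
  apply add_le_add
  · exact Real.sqrt_le_sqrt (Q_le_SQ (xi_le_two u) hf hA)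
  · exact Real.sqrt_le_sqrt (Q_le_SQ (xi_le_two u) hg hA)

lemma pu_smul (u : X → unitInterval) (c : ℝ) (f : X → ℝ) : pu u (c • f) = |c| * pu u f := by
  unfold pu
  have : SQ (xi u) (c • f) = c ^ 2 * SQ (xi u) f := by
    unfold SQ
    rw [Real.mul_iSup_of_nonneg (sq_nonneg c)]
    congr 1
    ext A
    exact (sqSemi_Q (one_le_xi u) A.1).smul c f
  rw [this, Real.sqrt_mul (sq_nonneg c), Real.sqrt_sq_eq_abs]

lemma le_pu (u : X → unitInterval) {f : X → ℝ} (hf : InJ f) : √(sSup (VS f)) ≤ pu u f := by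
  have : Nonempty X := ⟨⊤⟩
  apply Real.sqrt_le_sqrt
  apply sSup_VS_le
  intro A
  exact (VA_le_VA_insert_top f A).trans ((VA_le_Q (one_le_xi u) f _).trans
    (Q_le_SQ (xi_le_two u) hf (mem_insert_self _ _)))

lemma sSup_VS_nonneg (f : X → ℝ) : 0 ≤ sSup (VS f) := by
  apply Real.sSup_nonneg
  intro s hs
  obtain ⟨A, _, rfl⟩ := VS_eq f hs
  exact VA_nonneg f A

lemma pu_le (u : X → unitInterval) {f : X → ℝ} (hf : InJ f) : pu u f ≤ 3 * √(sSup (VS f)) := by
  have h0 := sSup_VS_nonneg f
  unfold pu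
  rw [Real.sqrt_le_left (by positivity), mul_pow, Real.sq_sqrt h0]
  apply SQ_le
  intro A _
  refine (Q_le (xi_le_two u) hf.bdd A).trans ?_
  linarith

lemma measurable_pu {f : X → ℝ} (hf : InJ f) : Measurable (fun u => pu u f) :=
  (measurable_SQ hf).sqrt

lemma integrable_pu {f : X → ℝ} (hf : InJ f) : Integrable (fun u => pu u f) (PP X) := by
  apply Integrable.of_bound (measurable_pu hf).aestronglyMeasurable (3 * √(sSup (VS f)))
  filter_upwards with u
  rw [Real.norm_of_nonneg (pu_nonneg u f)]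
  exact pu_le u hf

/-- the norm -/
noncomputable def pp (f : X → ℝ) : ℝ := ∫ u, pu u f ∂(PP X)

lemma pp_add {f g : X → ℝ} (hf : InJ f) (hg : InJ g) : pp (f + g) ≤ pp f + pp g := by
  unfold pp
  rw [← integral_add (integrable_pu hf) (integrable_pu hg)]
  exact integral_mono (integrable_pu (hf.add hg)) ((integrable_pu hf).add (integrable_pu hg))
    (fun u => pu_add u hf hg)

lemma pp_smul (c : ℝ) (f : X → ℝ) : pp (c • f) = |c| * pp f := by
  unfold pp
  simp only [pu_smul]
  rw [integral_const_mul]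

lemma le_pp {f : X → ℝ} (hf : InJ f) : √(sSup (VS f)) ≤ pp f := by
  unfold pp
  have h : ∫ _ : X → unitInterval, √(sSup (VS f)) ∂(PP X) = √(sSup (VS f)) := by simp
  rw [← h]
  exact integral_mono (integrable_const _) (integrable_pu hf) (fun u => le_pu u hf)

lemma pp_le {f : X → ℝ} (hf : InJ f) : pp f ≤ 3 * √(sSup (VS f)) := by
  unfold pp
  have h : ∫ _ : X → unitInterval, 3 * √(sSup (VS f)) ∂(PP X) = 3 * √(sSup (VS f)) := by simp
  rw [← h]
  exact integral_mono (integrable_pu hf) (integrable_const _) (fun u => pu_le u hf)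

lemma SQ_pos (u : X → unitInterval) {f : X → ℝ} (hf : InJ f) (h0 : f ≠ 0) : 0 < SQ (xi u) f := by
  obtain ⟨x, hx⟩ : ∃ x, f x ≠ 0 := by
    by_contra hcon
    push Not at hcon
    exact h0 (funext hcon)
  have hxt : x < ⊤ := lt_top_iff_ne_top.mpr (fun h => hx (by rw [h, hf.top]))
  have h1 : VA f (insert ⊤ {x}) = (f x) ^ 2 := by
    unfold VA
    rw [cost_insert_max (kV f) (by intro a ha; rw [mem_singleton.mp ha]; exact hxt)]
    have e1 : pv ({x} : Finset X) ⊤ = x :=
      pv_eq (mem_singleton_self x) hxt (fun c hc _ => (mem_singleton.mp hc).le)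
    have e2 : cost (kV f) {x} = 0 := by
      unfold cost
      rw [Finset.sum_singleton, pv_eq_self (fun c hc => (mem_singleton.mp hc).ge), kV_self]
    rw [e1, e2, kV, hf.top]; ring
  have h2 := (VA_le_Q (one_le_xi u) f (insert ⊤ {x})).trans
    (Q_le_SQ (xi_le_two u) hf (mem_insert_self _ _))
  have h3 : 0 < (f x) ^ 2 := by positivity
  linarith

/-- second differences of `pu` -/
lemma pu_second (u : X → unitInterval) {f : X → ℝ} (hf : InJ f) (h0 : f ≠ 0)
    (hG : Good (xi u) f) {g : X} (hg : g < ⊤) {κ : ℝ} (hκ : 0 < κ) :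
    ∀ᶠ t in 𝓝[>] (0 : ℝ), pu u (f + t • ee g) + pu u (f + (-t) • ee g) - 2 * pu u f ≤ κ * t := by
  have hS := SQ_pos u hf h0
  have hs : 0 < pu u f := Real.sqrt_pos.mpr hS
  have h1 := SQ_second (one_le_xi u) (xi_le_two u) hf hG hg (show 0 < 2 * pu u f * κ by positivity)
  filter_upwards [h1] with t ht
  have e0 := pu_sq u f
  have e1 := pu_sq u (f + t • ee g)
  have e2 := pu_sq u (f + (-t) • ee g)
  rw [← e0, ← e1, ← e2] at ht
  have h2 : 2 * pu u f * (pu u (f + t • ee g) + pu u (f + (-t) • ee g) - 2 * pu u f) ≤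
      2 * pu u f * (κ * t) := by
    nlinarith [sq_nonneg (pu u (f + t • ee g) - pu u f),
      sq_nonneg (pu u (f + (-t) • ee g) - pu u f)]
  exact le_of_mul_le_mul_left h2 (by positivity)

/-- smoothness of `pp` at `f` in the direction `h` -/
def Sm (f h : X → ℝ) : Prop :=
  ∀ κ : ℝ, 0 < κ → ∀ᶠ t in 𝓝[>] (0 : ℝ), pp (f + t • h) + pp (f + (-t) • h) - 2 * pp f ≤ κ * t

lemma InJ.pert {f h : X → ℝ} (hf : InJ f) (hh : InJ h) (t : ℝ) : InJ (f + t • h) :=
  hf.add (hh.smul t)

/-- for seminorm type functions second differences are nonnegative -/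
lemma pu_second_nonneg (u : X → unitInterval) {f h : X → ℝ} (hf : InJ f) (hh : InJ h) (t : ℝ) :
    0 ≤ pu u (f + t • h) + pu u (f + (-t) • h) - 2 * pu u f := by
  have h1 := pu_add u (hf.pert hh t) (hf.pert hh (-t))
  have h2 : f + t • h + (f + (-t) • h) = (2 : ℝ) • f := by
    rw [two_smul, neg_smul]; abel
  rw [h2, pu_smul, abs_of_pos (by norm_num : (0 : ℝ) < 2)] at h1
  linarith

lemma pu_second_le (u : X → unitInterval) {f h : X → ℝ} (hf : InJ f) (hh : InJ h) (t : ℝ) :
    pu u (f + t • h) + pu u (f + (-t) • h) - 2 * pu u f ≤ 2 * |t| * pu u h := by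
  have h1 := pu_add u hf (hh.smul t)
  have h2 := pu_add u hf (hh.smul (-t))
  rw [pu_smul] at h1 h2
  rw [abs_neg] at h2
  linarith

lemma Sm_ee {f : X → ℝ} (hf : InJ f) (h0 : f ≠ 0) {g : X} (hg : g < ⊤) : Sm f (ee g) := by
  have hh := InJ_ee hg
  intro κ hκ
  set G : ℝ → (X → unitInterval) → ℝ := fun t u =>
    (pu u (f + t • ee g) + pu u (f + (-t) • ee g) - 2 * pu u f) / t with hGdef
  have hint : ∀ t : ℝ, Integrable (fun u => pu u (f + t • ee g) + pu u (f + (-t) • ee g) -
      2 * pu u f) (PP X) := fun t =>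
    ((integrable_pu (hf.pert hh t)).add (integrable_pu (hf.pert hh (-t)))).sub
      ((integrable_pu hf).const_mul 2)
  have hlim : Tendsto (fun t => ∫ u, G t u ∂(PP X)) (𝓝[>] (0 : ℝ))
      (𝓝 (∫ _ : X → unitInterval, (0 : ℝ) ∂(PP X))) := by
    apply tendsto_integral_filter_of_dominated_convergence
      (fun _ => 2 * (3 * √(sSup (VS (ee g)))))
    · filter_upwards with t
      exact ((hint t).div_const t).aestronglyMeasurable
    · filter_upwards [self_mem_nhdsWithin] with t ht
      have ht' : 0 < t := ht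
      filter_upwards with u
      have h1 := pu_second_nonneg u hf hh t
      have h2 := pu_second_le u hf hh t
      have h3 := pu_le u hh
      rw [abs_of_pos ht'] at h2
      rw [hGdef, Real.norm_of_nonneg (div_nonneg h1 ht'.le), div_le_iff₀ ht']
      nlinarith
    · exact integrable_const _
    · filter_upwards [ae_good hf] with u hu
      rw [tendsto_order]
      constructor
      · intro a ha
        filter_upwards [self_mem_nhdsWithin] with t ht
        have ht' : 0 < t := ht
        exact lt_of_lt_of_le ha (div_nonneg (pu_second_nonneg u hf hh t) ht'.le)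
      · intro a ha
        filter_upwards [self_mem_nhdsWithin, pu_second u hf h0 hu hg (half_pos ha)] with t ht h1
        have ht' : 0 < t := ht
        have h2 : G t u ≤ a / 2 := by
          rw [hGdef]; simp only; rw [div_le_iff₀ ht']; exact h1
        linarith
  rw [integral_zero] at hlim
  filter_upwards [hlim.eventually (gt_mem_nhds hκ), self_mem_nhdsWithin] with t h1 ht
  have ht' : 0 < t := ht
  have h2 : ∫ u, G t u ∂(PP X) = (pp (f + t • ee g) + pp (f + (-t) • ee g) - 2 * pp f) / t := by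
    rw [hGdef]
    simp only
    rw [integral_div]
    congr 1
    unfold pp
    have hA : Integrable (fun u => pu u (f + t • ee g) + pu u (f + (-t) • ee g)) (PP X) :=
      (integrable_pu (hf.pert hh t)).add (integrable_pu (hf.pert hh (-t)))
    rw [integral_sub hA ((integrable_pu hf).const_mul 2), integral_add
      (integrable_pu (hf.pert hh t)) (integrable_pu (hf.pert hh (-t))), integral_const_mul]
  rw [h2, div_lt_iff₀ ht'] at h1
  exact h1.le

lemma tendsto_mul_pos {c : ℝ} (hc : 0 < c) : Tendsto (fun t : ℝ => c * t) (𝓝[>] 0) (𝓝[>] 0) := by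
  apply tendsto_nhdsWithin_of_tendsto_nhds_of_eventually_within
  · have : Tendsto (fun t : ℝ => c * t) (𝓝 0) (𝓝 (c * 0)) := (continuous_const_mul c).tendsto 0
    rw [mul_zero] at this
    exact this.mono_left nhdsWithin_le_nhds
  · filter_upwards [self_mem_nhdsWithin] with t ht
    exact mul_pos hc ht

lemma pp_half {a b : X → ℝ} (ha : InJ a) (hb : InJ b) :
    pp ((1 / 2 : ℝ) • a + (1 / 2 : ℝ) • b) ≤ 1 / 2 * pp a + 1 / 2 * pp b := by
  have := pp_add (ha.smul (1 / 2)) (hb.smul (1 / 2))
  rw [pp_smul, pp_smul, abs_of_pos (by norm_num : (0 : ℝ) < 1 / 2)] at this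
  exact this

/-- smoothness in all directions -/
theorem Sm_all {f : X → ℝ} (hf : InJ f) (h0 : f ≠ 0) {h : X → ℝ} (hh : InJ h) : Sm f h := by
  apply InJ_induction (P := fun h => Sm f h) _ _ _ _ (fun g hg => Sm_ee hf h0 hg) hh
  · intro κ hκ
    filter_upwards [self_mem_nhdsWithin] with t ht
    have ht' : 0 < t := ht
    simp only [smul_zero, add_zero]
    nlinarith
  · intro a b ha hb hSa hSb κ hκ
    have h1 := (tendsto_mul_pos (by norm_num : (0 : ℝ) < 2)).eventually (hSa (κ / 2) (half_pos hκ))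
    have h2 := (tendsto_mul_pos (by norm_num : (0 : ℝ) < 2)).eventually (hSb (κ / 2) (half_pos hκ))
    filter_upwards [h1, h2] with t h1 h2
    have e1 : f + t • (a + b) = (1 / 2 : ℝ) • (f + (2 * t) • a) + (1 / 2 : ℝ) • (f + (2 * t) • b) := by
      ext x; simp only [Pi.add_apply, Pi.smul_apply, smul_eq_mul]; ring
    have e2 : f + (-t) • (a + b) =
        (1 / 2 : ℝ) • (f + (-(2 * t)) • a) + (1 / 2 : ℝ) • (f + (-(2 * t)) • b) := by
      ext x; simp only [Pi.add_apply, Pi.smul_apply, smul_eq_mul]; ring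
    have h3 := pp_half (hf.pert ha (2 * t)) (hf.pert hb (2 * t))
    have h4 := pp_half (hf.pert ha (-(2 * t))) (hf.pert hb (-(2 * t)))
    rw [e1, e2]
    linarith
  · intro c a ha hSa κ hκ
    rcases lt_trichotomy c 0 with hc | hc | hc
    · have hc' : 0 < -c := by linarith
      have h1 := (tendsto_mul_pos hc').eventually (hSa (κ / -c) (div_pos hκ hc'))
      filter_upwards [h1] with t h1
      have e1 : f + t • (c • a) = f + (-(-c * t)) • a := by
        rw [smul_smul]; congr 2; ring
      have e2 : f + (-t) • (c • a) = f + (-c * t) • a := by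
        rw [smul_smul]; congr 2; ring
      have e3 : κ / -c * (-c * t) = κ * t := by rw [← mul_assoc, div_mul_cancel₀ _ hc'.ne']
      rw [e1, e2]
      rw [e3] at h1
      linarith
    · filter_upwards [self_mem_nhdsWithin] with t ht
      have ht' : 0 < t := ht
      rw [hc]
      simp only [zero_smul, smul_zero, add_zero]
      nlinarith
    · have h1 := (tendsto_mul_pos hc).eventually (hSa (κ / c) (div_pos hκ hc))
      filter_upwards [h1] with t h1
      have e1 : f + t • (c • a) = f + (c * t) • a := by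
        rw [smul_smul]; congr 2; ring
      have e2 : f + (-t) • (c • a) = f + (-(c * t)) • a := by
        rw [smul_smul]; congr 2; ring
      have e3 : κ / c * (c * t) = κ * t := by field_simp
      rw [e1, e2]
      rw [e3] at h1
      linarith
  · intro a ha hap κ hκ
    obtain ⟨b, hb, hSb, hab, hsup⟩ := hap ((κ / 12) ^ 2) (by positivity)
    have h1 : pp (a - b) ≤ κ / 4 := by
      have e1 := pp_le hab
      have e2 : √(sSup (VS (a - b))) ≤ κ / 12 := by
        rw [Real.sqrt_le_left (by positivity)]; exact hsup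
      linarith
    filter_upwards [hSb (κ / 2) (half_pos hκ), self_mem_nhdsWithin] with t h2 ht
    have ht' : 0 < t := ht
    have e1 : f + t • a = (f + t • b) + t • (a - b) := by rw [smul_sub]; abel
    have e2 : f + (-t) • a = (f + (-t) • b) + (-t) • (a - b) := by rw [smul_sub]; abel
    have h3 := pp_add (hf.pert hb t) (hab.smul t)
    have h4 := pp_add (hf.pert hb (-t)) (hab.smul (-t))
    rw [← e1, pp_smul, abs_of_pos ht'] at h3
    rw [← e2, pp_smul, abs_neg, abs_of_pos ht'] at h4
    nlinarith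

/-- existence of the two-sided directional derivative -/
theorem exists_deriv {f : X → ℝ} (hf : InJ f) (h0 : f ≠ 0) {h : X → ℝ} (hh : InJ h) :
    ∃ d : ℝ, Tendsto (fun t : ℝ => (pp (f + t • h) - pp f) / t) (𝓝[≠] 0) (𝓝 d) := by
  have hS := Sm_all hf h0 hh
  set φ : ℝ → ℝ := fun t => pp (f + t • h) with hφ
  set D : ℝ → ℝ := fun t => (φ t - φ 0) / t with hD
  have hφ0 : φ 0 = pp f := by simp [hφ]
  -- convexity
  have hconv : ∀ s t : ℝ, ∀ a b : ℝ, 0 ≤ a → 0 ≤ b → a + b = 1 →
      φ (a * s + b * t) ≤ a * φ s + b * φ t := by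
    intro s t a b ha hb hab
    have h1 := pp_add ((hf.pert hh s).smul a) ((hf.pert hh t).smul b)
    rw [pp_smul, pp_smul, abs_of_nonneg ha, abs_of_nonneg hb] at h1
    have h2 : f + (a * s + b * t) • h = a • (f + s • h) + b • (f + t • h) := by
      ext x
      simp only [Pi.add_apply, Pi.smul_apply, smul_eq_mul]
      have : f x = (a + b) * f x := by rw [hab, one_mul]
      calc f x + (a * s + b * t) * h x = (a + b) * f x + (a * s + b * t) * h x := by rw [← this]
        _ = _ := by ring
    simp only [hφ]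
    rw [h2]; exact h1
  -- slopes are monotone
  have hmono : MonotoneOn D (Set.Ioi 0) := by
    intro s hs t ht hst
    have hs' : 0 < s := hs
    have ht' : 0 < t := ht
    have h1 := hconv t 0 (s / t) (1 - s / t) (by positivity)
      (by rw [sub_nonneg, div_le_one ht']; exact hst) (by ring)
    have h2 : s / t * t + (1 - s / t) * 0 = s := by
      rw [mul_zero, add_zero, div_mul_cancel₀ _ ht'.ne']
    rw [h2] at h1
    simp only [hD]
    rw [div_le_div_iff₀ hs' ht']
    have h3 : φ s * t ≤ (s / t * φ t + (1 - s / t) * φ 0) * t :=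
      mul_le_mul_of_nonneg_right h1 ht'.le
    have h4 : (s / t * φ t + (1 - s / t) * φ 0) * t = s * φ t + (t - s) * φ 0 := by
      field_simp
    rw [h4] at h3
    linarith
  have hbdd : BddBelow (D '' Set.Ioi 0) := by
    refine ⟨-pp h, ?_⟩
    rintro _ ⟨t, ht, rfl⟩
    have ht' : 0 < t := ht
    have h1 := pp_add (hf.pert hh t) (hh.smul (-t))
    have h2 : f + t • h + (-t) • h = f := by rw [neg_smul]; abel
    rw [h2, pp_smul, abs_neg, abs_of_pos ht'] at h1
    simp only [hD]
    rw [le_div_iff₀ ht', hφ0]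
    simp only [hφ]
    linarith
  have hright := hmono.tendsto_nhdsGT hbdd
  set L := sInf (D '' Set.Ioi 0) with hL
  have hdiff : Tendsto (fun t => D t - D (-t)) (𝓝[>] 0) (𝓝 0) := by
    rw [tendsto_order]
    constructor
    · intro a ha
      filter_upwards [self_mem_nhdsWithin] with t ht
      have ht' : 0 < t := ht
      have h1 := hconv t (-t) (1 / 2) (1 / 2) (by norm_num) (by norm_num) (by norm_num)
      have h2 : (1 : ℝ) / 2 * t + 1 / 2 * -t = 0 := by ring
      rw [h2] at h1
      have h3 : D t - D (-t) = (φ t + φ (-t) - 2 * φ 0) / t := by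
        simp only [hD]; field_simp; ring
      rw [h3]
      refine lt_of_lt_of_le ha (div_nonneg ?_ ht'.le)
      linarith
    · intro a ha
      filter_upwards [self_mem_nhdsWithin, hS (a / 2) (half_pos ha)] with t ht h1
      have ht' : 0 < t := ht
      have h3 : D t - D (-t) = (φ t + φ (-t) - 2 * φ 0) / t := by
        simp only [hD]; field_simp; ring
      rw [h3, div_lt_iff₀ ht', hφ0]
      simp only [hφ]
      nlinarith
  have hleft' : Tendsto (fun t => D (-t)) (𝓝[>] 0) (𝓝 L) := by
    have := hright.sub hdiff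
    simp only [sub_sub_cancel, sub_zero] at this
    exact this
  have hleft : Tendsto D (𝓝[<] 0) (𝓝 L) := by
    have hneg : Tendsto (fun t : ℝ => -t) (𝓝[<] 0) (𝓝[>] 0) := by
      have := tendsto_neg_nhdsLT (a := (0 : ℝ))
      rwa [neg_zero] at this
    have := hleft'.comp hneg
    refine this.congr (fun t => ?_)
    simp
  refine ⟨L, ?_⟩
  have : Tendsto D (𝓝[≠] 0) (𝓝 L) := by
    rw [← nhdsLT_sup_nhdsGT]
    exact hleft.sup hright
  refine this.congr (fun t => ?_)
  simp only [hD, hφ0]
  rfl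

/-- the theorem for a general compact well-ordered space -/
theorem main_general (X : Type*) [LinearOrder X] [OrderTop X] [SuccOrder X] [WellFoundedLT X]
    [TopologicalSpace X] [OrderTopology X] [CompactSpace X] :
    ∃ p : (X → ℝ) → ℝ,
      (∀ f g, InJ f → InJ g → p (f + g) ≤ p f + p g) ∧
      (∀ (a : ℝ) f, InJ f → p (a • f) = |a| * p f) ∧
      (∀ f, InJ f → √(sSup (VS f)) ≤ p f ∧ p f ≤ 3 * √(sSup (VS f))) ∧
      (∀ f, InJ f → f ≠ 0 → ∀ h, InJ h → ∃ d : ℝ,
          Tendsto (fun t : ℝ => (p (f + t • h) - p f) / t) (𝓝[≠] 0) (𝓝 d)) :=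
  ⟨pp, fun _ _ hf hg => pp_add hf hg, fun a f _ => pp_smul a f,
    fun _ hf => ⟨le_pp hf, pp_le hf⟩, fun _ hf h0 _ hh => exists_deriv hf h0 hh⟩

end Pool.Agent.LongJames
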